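import Pool.Agent.PB.Main

set_option autoImplicit false

open MvPolynomial

namespace Pool.Agent.PB

theorem nth_map0 (ds : List ℕ) (i : ℕ) : nth (ds.map (fun _ => 0)) i = 0 := by
  induction ds generalizing i with
  | nil => rfl
  | cons d ds ih =>
    cases i with
    | zero => rfl
    | succ i => exact ih i

theorem st_cons (d0 : ℕ) (ds : List ℕ) (i : ℕ) :
    st (nth (d0 :: ds)) (i + 1) = (d0 + 1) * st (nth ds) i := by
  induction i with
  | zero => simp [st, nth_zero]
  | succ i ih =>
    rw [st, ih, nth_succ, st]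
    ring

theorem shs_spec (ds : List ℕ) (h i : ℕ) (hi : i < ds.length) : nth (shs ds h) i = h * st (nth ds) i := by
  induction ds generalizing h i with
  | nil => simp at hi
  | cons d ds ih =>
    have : shs (d :: ds) h = h :: shs ds (h * (d + 1)) := rfl
    rw [this]
    cases i with
    | zero => rw [nth_zero, st, mul_one]
    | succ i =>
      rw [nth_succ, ih _ i (by simpa using hi), st_cons]
      ring

theorem tot_spec (ds : List ℕ) (h : ℕ) : tot ds h = h * st (nth ds) ds.length := by
  induction ds generalizing h with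
  | nil => show h = h * 1; ring
  | cons d ds ih =>
    have : tot (d :: ds) h = tot ds (h * (d + 1)) := rfl
    rw [this, ih, List.length_cons, st_cons]
    ring

theorem sm_spec (ds : List ℕ) : sm ds = ∑ i : Fin ds.length, nth ds i := by
  induction ds with
  | nil => rfl
  | cons d ds ih =>
    have : sm (d :: ds) = d + sm ds := rfl
    rw [this, ih]
    show _ = ∑ i : Fin (ds.length + 1), nth (d :: ds) i
    rw [Fin.sum_univ_succ]
    rfl

theorem le_sm (l : List ℕ) (x : ℕ) (hx : x ∈ l) : x ≤ sm l := by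
  induction l with
  | nil => simp at hx
  | cons y l ih =>
    have : sm (y :: l) = y + sm l := rfl
    rw [this]
    rcases List.mem_cons.1 hx with h | h
    · omega
    · have := ih h
      omega

theorem dot_spec (K ds : List ℕ) : dot K ds = ∑ i : Fin ds.length, nth K i * nth ds i := by
  induction ds generalizing K with
  | nil =>
    cases K with
    | nil => rfl
    | cons k K => rfl
  | cons d ds ih =>
    cases K with
    | nil => simp [dot, nth_nil]
    | cons k K =>
      have : dot (k :: K) (d :: ds) = k * d + dot K ds := rfl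
      rw [this, ih]
      show _ = ∑ i : Fin (ds.length + 1), nth (k :: K) i * nth (d :: ds) i
      rw [Fin.sum_univ_succ]
      rfl

theorem bok_spec (A : List ℕ) (K : List ℕ) (h : bok A K = true) (i : ℕ) : nth A i + 1 ≤ 2 ^ nth K i := by
  induction A generalizing K i with
  | nil =>
    rw [nth_nil]
    exact Nat.one_le_two_pow
  | cons a A ih =>
    have h1 : bok (a :: A) K = cond (Nat.ble (Nat.succ a) (2 ^ nth K 0)) (bok A K.tail) false := rfl
    rw [h1] at h
    have h2 : Nat.ble (Nat.succ a) (2 ^ nth K 0) = true := by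
      by_contra h0
      rw [Bool.not_eq_true] at h0
      rw [h0] at h
      exact absurd h (by simp)
    rw [h2, cond_true] at h
    cases i with
    | zero => exact Nat.le_of_ble_eq_true h2
    | succ i =>
      rw [nth_succ]
      have h3 := ih K.tail h i
      have h4 : nth K.tail i = nth K (i + 1) := by
        cases K with
        | nil => rfl
        | cons k K => rfl
      rwa [h4] at h3

theorem eex_spec (ds : List ℕ) (h acc : ℕ) :
    eex ds h acc = acc * ∏ i : Fin ds.length, (1 + 2 ^ (h * st (nth ds) i)) ^ nth ds i := by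
  induction ds generalizing h acc with
  | nil => show acc = acc * 1; ring
  | cons d ds ih =>
    have : eex (d :: ds) h acc = eex ds (h * (d + 1)) (acc * (2 ^ h + 1) ^ d) := rfl
    rw [this, ih]
    show _ = acc * ∏ i : Fin (ds.length + 1), (1 + 2 ^ (h * st (nth (d :: ds)) i)) ^ nth (d :: ds) i
    rw [Fin.prod_univ_succ]
    have h1 : ∀ i : Fin ds.length, (1 + 2 ^ (h * st (nth (d :: ds)) (i.succ : Fin (ds.length + 1)))) ^
        nth (d :: ds) (i.succ : Fin (ds.length + 1)) = (1 + 2 ^ (h * (d + 1) * st (nth ds) i)) ^ nth ds i := by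
      intro i
      rw [Fin.val_succ, st_cons, nth_succ, mul_assoc]
    rw [Finset.prod_congr rfl (fun i _ => h1 i)]
    have h2 : (1 + 2 ^ (h * st (nth (d :: ds)) ((0 : Fin (ds.length + 1)) : ℕ))) ^
        nth (d :: ds) ((0 : Fin (ds.length + 1)) : ℕ) = (2 ^ h + 1) ^ d := by
      rw [Fin.val_zero, nth_zero, st, mul_one, add_comm]
    rw [h2]
    ring

theorem dat_spec {α : Type} (TB : ℕ) (ds : List ℕ) (h : ℕ) (k : List (List ℕ) → α) :
    ∃ V : List (List ℕ), dat TB ds h k = k V ∧ ∀ i < ds.length, nthl V i =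
      (h * st (nth ds) i) :: nth ds i :: msk (h * st (nth ds) i) (h * st (nth ds) (i + 1))
        (TB / (h * st (nth ds) (i + 1))) (nth ds i + 1) [] := by
  induction ds generalizing h k with
  | nil => exact ⟨[], rfl, fun i hi => by simp at hi⟩
  | cons d ds ih =>
    have h1 : dat TB (d :: ds) h k = frc (h * (d + 1)) (fun T =>
      dat TB ds T (fun r => k ((h :: d :: msk h T (TB / T) (d + 1) []) :: r))) := rfl
    rw [h1, frc_eq]
    obtain ⟨V, h2, h3⟩ := ih (h * (d + 1)) (fun r => k ((h :: d :: msk h (h * (d + 1)) (TB / (h * (d + 1))) (d + 1) []) :: r))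
    refine ⟨_, h2, fun i hi => ?_⟩
    cases i with
    | zero => rw [nthl_zero, nth_zero, st, st, st, nth_zero, one_mul, mul_one]
    | succ i =>
      rw [nthl_succ, h3 i (by simpa using hi), nth_succ, st_cons, st_cons, mul_assoc, mul_assoc]

theorem obs_spec {α : Type} (fs : List Ax) (k : List ℕ → List ℕ → α) :
    obs fs k = k (fs.map (fun e => (p1 e).2)) (fs.map (fun e => (p1 e).1 + (p1 e).2)) := by
  induction fs generalizing k with
  | nil => rfl
  | cons f fs ih =>
    have h1 : obs (f :: fs) k = frc (Dv.dn f).2 (fun m => frc ((Dv.dn f).1 + m) (fun b => obs fs (fun os bs => k (m :: os) (b :: bs)))) :=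
      rfl
    rw [h1, frc_eq, frc_eq, ih, Dv.dn_eq]
    rfl

/-- items -/
noncomputable def itm (e : Ax) : ((ℕ → ℝ) → ℝ) × ℕ × ℕ := (fun x => e.val x, (p1 e).2, (p1 e).1 + (p1 e).2)

theorem hds_spec (zs ds : List ℕ) (hz : ∀ i, nth zs i = 0) (fs : List Ax) (h : hds zs ds fs = true) :
    ∀ f ∈ fs, Hm zs.length f (nth ds) := by
  induction fs with
  | nil => intro f hf; simp at hf
  | cons e fs ih =>
    have h1 : hds zs ds (e :: fs) = cond (cond (Dv.hq zs.length ds e) true (hd zs e (fun l => leq l ds))) (hds zs ds fs) false := rfl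
    rw [h1] at h
    by_cases h2 : cond (Dv.hq zs.length ds e) true (hd zs e (fun l => leq l ds)) = true
    · rw [h2, cond_true] at h
      intro f hf
      rcases List.mem_cons.1 hf with h3 | h3
      · rw [h3]
        cases h6 : Dv.hq zs.length ds e with
        | true => exact Dv.hq_sound h6
        | false =>
          rw [h6, cond_false] at h2
          obtain ⟨l, _, h4, h5⟩ := hd_sound zs hz e _ h2
          rw [← leq_eq h4]
          exact h5
      · exact ih h f h3
    · rw [Bool.not_eq_true] at h2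
      rw [h2] at h
      exact absurd h (by simp)

theorem ini_spec {α : Type} (W : ℕ) (ds A K : List ℕ) (hA : ∀ i, nth A i + 1 ≤ 2 ^ nth K i) (fs : List Ax)
    (hfs : ∀ f ∈ fs, Hm ds.length f (nth ds)) (k : List ℕ → α) :
    ∃ Ns, ini A K (shs ds W) (∑ i : Fin ds.length, nth K i * nth ds i) (kap W (nth ds) (EP ds.length (nth ds))) fs
      (fs.map (fun e => (p1 e).2)) k = k Ns ∧
      InvL ds.length W (nth ds) (nth A) (nth K) (∑ i : Fin ds.length, nth K i * nth ds i) (fs.map itm) Ns := by
  induction fs generalizing k with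
  | nil => exact ⟨[], rfl, List.Forall₂.nil⟩
  | cons f fs ih =>
    set K0 := ∑ i : Fin ds.length, nth K i * nth ds i with hK0
    set EE := kap W (nth ds) (EP ds.length (nth ds)) with hEE
    have h1 : ini A K (shs ds W) K0 EE (f :: fs) ((f :: fs).map (fun e => (p1 e).2)) k =
      ini A K (shs ds W) K0 EE fs (fs.map (fun e => (p1 e).2))
        (fun Ns => k (Dv.zq (EE * ((p1 f).2 <<< K0)) (Dv.dz A K (shs ds W) f) :: Ns)) := rfl
    rw [h1, Dv.zq_eq _ _ _ _ (Dv.dz_eq A K (shs ds W) f)]
    obtain ⟨Ns, h2, h3⟩ := ih (fun g hg => hfs g (List.mem_cons_of_mem _ hg))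
      (fun Ns => k (((pm (fun i => nth A i + (nth A i + 1) * 2 ^ nth (shs ds W) i)
        (fun i => 2 ^ nth K i * (1 + 2 ^ nth (shs ds W) i)) f).1 + EE * ((p1 f).2 <<< K0) -
        (pm (fun i => nth A i + (nth A i + 1) * 2 ^ nth (shs ds W) i)
        (fun i => 2 ^ nth K i * (1 + 2 ^ nth (shs ds W) i)) f).2) :: Ns))
    refine ⟨_, h2, List.Forall₂.cons ?_ h3⟩
    have hf := hfs f List.mem_cons_self
    have h4 := Inv.ini (W := W) (A := nth A) (k := nth K) hf (fun i _ => hA i)
    have h5 : pm (fun i => nth A i + (nth A i + 1) * 2 ^ nth (shs ds W) i)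
        (fun i => 2 ^ nth K i * (1 + 2 ^ nth (shs ds W) i)) f =
        pm (fun i => nth A i + (nth A i + 1) * 2 ^ (W * st (nth ds) i))
        (fun i => 2 ^ nth K i * (1 + 2 ^ (W * st (nth ds) i))) f := by
      apply hf.congr
      · intro i hi
        rw [shs_spec ds W i hi]
      · intro i hi
        rw [shs_spec ds W i hi]
    rw [h5, Nat.shiftLeft_eq]
    rw [← hK0, ← hEE, mul_assoc] at h4
    exact h4

theorem chk_sound {W : ℕ} {ds : List ℕ} {fs : List Ax} {tab : List (List ℕ)} {A K : List ℕ} {fuel code : ℕ}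
    (h : chk W ds fs tab A K fuel code = true) (x : ℕ → ℝ) (hx : Box ds.length (nth A) (nth K) x) :
    ∃ (δ : ℕ) (ls : List ℕ), (δ :: ls) ∈ tab ∧ (δ : ℝ) ≤ comb ls (fs.map (fun e x => e.val x)) x := by
  have h1 : cond (Nat.ble 1 W) (cond (bok A K) (hds (ds.map (fun _ => 0)) ds fs) false) false = true := by
    by_contra h0
    rw [Bool.not_eq_true] at h0
    unfold chk at h
    rw [h0] at h
    exact absurd h (by simp)
  have hW : 0 < W := by
    by_contra h0
    have : W = 0 := by omega
    rw [this] at h1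
    exact absurd h1 (by simp [Nat.ble])
  have hW' : Nat.ble 1 W = true := Nat.ble_eq_true_of_le hW
  rw [hW', cond_true] at h1
  have hbok : bok A K = true := by
    by_contra h0
    rw [Bool.not_eq_true] at h0
    rw [h0] at h1
    exact absurd h1 (by simp)
  rw [hbok, cond_true] at h1
  have hA := bok_spec A K hbok
  have hlen : (ds.map (fun _ => 0)).length = ds.length := List.length_map _
  have hfs := hds_spec _ ds (nth_map0 ds) fs h1
  rw [hlen] at hfs
  unfold chk at h
  rw [hW', cond_true, hbok, cond_true, h1, cond_true] at h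
  unfold Dv.chr at h
  simp only [frc_eq, lfrc_eq, obs_spec] at h
  obtain ⟨V, hV1, hV2⟩ := dat_spec (tot ds W) ds W (fun V =>
    (fun Os Bs => ini A K (shs ds W) (dot K ds) (eex ds W 1) fs Os (fun Ns =>
      Nat.beq (run W ds.length (sm ds) (Nat.add (Nat.succ (Nat.log2 (sm Bs))) (sm ds)) (eex ds W 1)
        (Nat.mul (Nat.pow 2 (Nat.sub W 1)) (geo W (Nat.div (tot ds W) W))) Os Bs V tab fuel Ns (dot K ds) code) 1))
    (fs.map (fun e => (p1 e).2)) (fs.map (fun e => (p1 e).1 + (p1 e).2)))
  rw [hV1] at h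
  have hEE : eex ds W 1 = kap W (nth ds) (EP ds.length (nth ds)) := by
    rw [eex_spec, kap, ev_EP, one_mul]
  have hdiv : Nat.div (tot ds W) W = st (nth ds) ds.length := by
    rw [tot_spec]
    exact Nat.mul_div_cancel_left _ hW
  rw [hEE, hdiv, dot_spec] at h
  obtain ⟨Ns, hN1, hN2⟩ := ini_spec W ds A K hA fs hfs (fun Ns =>
      Nat.beq (run W ds.length (sm ds) (Nat.add (Nat.succ (Nat.log2 (sm (fs.map (fun e => (p1 e).1 + (p1 e).2))))) (sm ds))
        (kap W (nth ds) (EP ds.length (nth ds)))
        (Nat.mul (Nat.pow 2 (Nat.sub W 1)) (geo W (st (nth ds) ds.length))) (fs.map (fun e => (p1 e).2))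
        (fs.map (fun e => (p1 e).1 + (p1 e).2)) V tab fuel Ns (∑ i : Fin ds.length, nth K i * nth ds i) code) 1)
  beta_reduce at h
  rw [hN1] at h
  have h2 := Nat.eq_of_beq_eq_true h
  have hsd : sm ds = sdeg ds.length (nth ds) := sm_spec ds
  have hlb : ∀ a ∈ fs.map itm, a.2.2 * 2 ^ sdeg ds.length (nth ds) <
      2 ^ (Nat.add (Nat.succ (Nat.log2 (sm (fs.map (fun e => (p1 e).1 + (p1 e).2))))) (sm ds)) := by
    intro a ha
    obtain ⟨f, hf, rfl⟩ := List.mem_map.1 ha
    have h3 : (p1 f).1 + (p1 f).2 ≤ sm (fs.map (fun e => (p1 e).1 + (p1 e).2)) :=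
      le_sm _ _ (List.mem_map.2 ⟨f, hf, rfl⟩)
    have h4 : sm (fs.map (fun e => (p1 e).1 + (p1 e).2)) < 2 ^ ((sm (fs.map (fun e => (p1 e).1 + (p1 e).2))).log2 + 1) :=
      Nat.lt_log2_self
    show ((p1 f).1 + (p1 f).2) * _ < 2 ^ ((sm (fs.map (fun e => (p1 e).1 + (p1 e).2))).log2 + 1 + sm ds)
    rw [pow_add _ _ (sm ds), hsd]
    exact Nat.mul_lt_mul_of_pos_right (lt_of_le_of_lt h3 h4) (by positivity)
  have hVV : ∀ i < ds.length, ∃ q, nth (nthl V i) 0 = W * st (nth ds) i ∧ nth (nthl V i) 1 = nth ds i ∧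
      st (nth ds) ds.length = st (nth ds) (i + 1) * q ∧
      (nthl V i).tail.tail = msk (W * st (nth ds) i) (W * st (nth ds) (i + 1)) q (nth ds i + 1) [] := by
    intro i hi
    obtain ⟨q, hq⟩ := st_dvd (nth ds) (show i + 1 ≤ ds.length from hi)
    refine ⟨q, ?_, ?_, hq, ?_⟩
    · rw [hV2 i hi]; rfl
    · rw [hV2 i hi]; rfl
    · rw [hV2 i hi]
      have : tot ds W / (W * st (nth ds) (i + 1)) = q := by
        rw [tot_spec, hq, ← mul_assoc]
        exact Nat.mul_div_cancel_left _ (Nat.mul_pos hW (st_pos _ _))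
      rw [this]
      rfl
  have m1 : (fs.map itm).map (fun a => a.2.1) = fs.map (fun e => (p1 e).2) := by
    rw [List.map_map]; rfl
  have m2 : (fs.map itm).map (fun a => a.2.2) = fs.map (fun e => (p1 e).1 + (p1 e).2) := by
    rw [List.map_map]; rfl
  have m3 : (fs.map itm).map (fun a => a.1) = fs.map (fun e x => e.val x) := by
    rw [List.map_map]; rfl
  rw [← m1, ← m2] at h2
  rw [← m2] at hlb
  obtain ⟨i, δ, ls, h5, h6⟩ := run_sound (n := ds.length) hW hsd hlb hVV fuel (nth A) (nth K) _ Ns code 0 hN2 h2 x hx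
  rw [m3] at h6
  rcases nthl_mem tab i with h7 | h7
  · rw [h7] at h5
    exact absurd h5 (by simp)
  · rw [h5] at h7
    exact ⟨δ, ls, h7, h6⟩

theorem comb_nonpos (ls : List ℕ) (gs : List ((ℕ → ℝ) → ℝ)) (x : ℕ → ℝ) (h : ∀ g ∈ gs, g x ≤ 0) : comb ls gs x ≤ 0 := by
  induction ls generalizing gs with
  | nil => simp [comb]
  | cons l ls ih =>
    cases gs with
    | nil => simp [comb]
    | cons g gs =>
      have h1 := ih gs (fun g' hg' => h g' (List.mem_cons_of_mem _ hg'))
      have h2 := h g List.mem_cons_self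
      simp only [comb]
      have : (l : ℝ) * g x ≤ 0 := mul_nonpos_of_nonneg_of_nonpos (by positivity) h2
      linarith

/-- all entries have delta ≥ 1 -/
def tstr (tab : List (List ℕ)) : Bool := tab.all (fun l => decide (1 ≤ l.headD 0))

/-- all entries have delta ≥ 1 or lambda_0 ≥ 1 -/
def tnon (tab : List (List ℕ)) : Bool := tab.all (fun l => decide (1 ≤ l.headD 0) || decide (1 ≤ l.tail.headD 0))

/-- STRICT: p > 0 on the part of the box where all g ≤ 0 -/
theorem pos_of_chk {W : ℕ} {ds : List ℕ} {p : Ax} {gs : List Ax} {tab : List (List ℕ)} {A K : List ℕ} {fuel code : ℕ}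
    (h : chk W ds (p :: gs) tab A K fuel code = true) (ht : tstr tab = true) (x : ℕ → ℝ)
    (hx : Box ds.length (nth A) (nth K) x) (hg : ∀ g ∈ gs, g.val x ≤ 0) : 0 < p.val x := by
  obtain ⟨δ, ls, h1, h2⟩ := chk_sound h x hx
  have h3 : 1 ≤ δ := by
    have := List.all_eq_true.1 ht _ h1
    simpa using this
  have h3' : (1 : ℝ) ≤ δ := by exact_mod_cast h3
  cases ls with
  | nil => simp [comb] at h2; linarith
  | cons l ls =>
    simp only [List.map_cons, comb] at h2
    have h4 := comb_nonpos ls (gs.map (fun e x => e.val x)) x (by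
      intro g hg'
      obtain ⟨e, he, rfl⟩ := List.mem_map.1 hg'
      exact hg e he)
    by_contra h5
    push Not at h5
    have : (l : ℝ) * p.val x ≤ 0 := mul_nonpos_of_nonneg_of_nonpos (by positivity) h5
    linarith

/-- NON-STRICT -/
theorem nonneg_of_chk {W : ℕ} {ds : List ℕ} {p : Ax} {gs : List Ax} {tab : List (List ℕ)} {A K : List ℕ} {fuel code : ℕ}
    (h : chk W ds (p :: gs) tab A K fuel code = true) (ht : tnon tab = true) (x : ℕ → ℝ)
    (hx : Box ds.length (nth A) (nth K) x) (hg : ∀ g ∈ gs, g.val x ≤ 0) : 0 ≤ p.val x := by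
  obtain ⟨δ, ls, h1, h2⟩ := chk_sound h x hx
  have h3 : 1 ≤ δ ∨ 1 ≤ ls.headD 0 := by
    have := List.all_eq_true.1 ht _ h1
    simpa using this
  have h3' : (0 : ℝ) ≤ δ := by positivity
  cases ls with
  | nil =>
    simp [comb] at h2
    rcases h3 with h3 | h3
    · have : (1 : ℝ) ≤ δ := by exact_mod_cast h3
      linarith
    · simp at h3
  | cons l ls =>
    simp only [List.map_cons, comb] at h2
    have h4 := comb_nonpos ls (gs.map (fun e x => e.val x)) x (by
      intro g hg'
      obtain ⟨e, he, rfl⟩ := List.mem_map.1 hg'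
      exact hg e he)
    by_contra h5
    push Not at h5
    rcases h3 with h3 | h3
    · have h3' : (1 : ℝ) ≤ δ := by exact_mod_cast h3
      have : (l : ℝ) * p.val x ≤ 0 := mul_nonpos_of_nonneg_of_nonpos (by positivity) h5.le
      linarith
    · have h6 : (1 : ℝ) ≤ l := by
        simp only [List.headD_cons] at h3
        exact_mod_cast h3
      have : (l : ℝ) * p.val x < 0 := mul_neg_of_pos_of_neg (by linarith) h5
      linarith

end Pool.Agent.PB
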