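import Pool.Agent.PB.Chk

set_option autoImplicit false

namespace Pool.Agent.PB

/-- the boxes at the leaves of a subdivision tree (depth first); box = (corner, depths) -/
noncomputable def leaves (n : ℕ) : ℕ → List ℕ → List ℕ → List ℕ → List (List ℕ × List ℕ) × List ℕ
  | 0, A, K, ops => ([(A, K)], ops)
  | _ + 1, A, K, [] => ([(A, K)], [])
  | f + 1, A, K, op :: ops =>
    if op < n ∧ op < A.length ∧ op < K.length then
      ((leaves n f (A.set op (2 * nth A op)) (K.set op (nth K op + 1)) ops).1 ++
        (leaves n f (A.set op (2 * nth A op + 1)) (K.set op (nth K op + 1))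
          (leaves n f (A.set op (2 * nth A op)) (K.set op (nth K op + 1)) ops).2).1,
        (leaves n f (A.set op (2 * nth A op + 1)) (K.set op (nth K op + 1))
          (leaves n f (A.set op (2 * nth A op)) (K.set op (nth K op + 1)) ops).2).2)
    else ([(A, K)], ops)

theorem nth_set (l : List ℕ) (i y : ℕ) (hi : i < l.length) : nth (l.set i y) = Function.update (nth l) i y := by
  induction l generalizing i with
  | nil => simp at hi
  | cons x l ih =>
    cases i with
    | zero =>
      funext j
      cases j with
      | zero => simp [nth_zero]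
      | succ j => simp [nth_succ]
    | succ i =>
      funext j
      rw [List.set_cons_succ]
      cases j with
      | zero => simp [nth_zero]
      | succ j =>
        rw [nth_succ, ih i (by simpa using hi)]
        by_cases h : j = i
        · subst h; simp
        · rw [Function.update_of_ne h, Function.update_of_ne (by omega), nth_succ]

theorem box_split {n : ℕ} {A k : ℕ → ℕ} {x : ℕ → ℝ} (i : ℕ) (hi : i < n) (hx : Box n A k x) :
    Box n (Function.update A i (2 * A i)) (Function.update k i (k i + 1)) x ∨
      Box n (Function.update A i (2 * A i + 1)) (Function.update k i (k i + 1)) x := by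
  rcases le_total (2 ^ (k i + 1) * x i) (2 * A i + 1) with hx1 | hx1
  · left
    intro j hj
    by_cases h : j = i
    · rw [h]
      simp only [Function.update_self]
      have := (hx i hi).1
      rw [pow_succ] at hx1 ⊢
      push_cast
      constructor <;> linarith
    · simp only [Function.update_of_ne h]
      exact hx j hj
  · right
    intro j hj
    by_cases h : j = i
    · rw [h]
      simp only [Function.update_self]
      have := (hx i hi).2
      rw [pow_succ] at hx1 ⊢
      push_cast
      constructor <;> linarith
    · simp only [Function.update_of_ne h]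
      exact hx j hj

theorem leaves_cover (n : ℕ) (f : ℕ) (A K ops : List ℕ) (x : ℕ → ℝ) (hx : Box n (nth A) (nth K) x) :
    ∃ b ∈ (leaves n f A K ops).1, Box n (nth b.1) (nth b.2) x := by
  induction f generalizing A K ops with
  | zero => exact ⟨(A, K), by simp [leaves], hx⟩
  | succ f ih =>
    cases ops with
    | nil => exact ⟨(A, K), by simp [leaves], hx⟩
    | cons op ops =>
      by_cases h : op < n ∧ op < A.length ∧ op < K.length
      · rw [leaves, if_pos h]
        rcases box_split op h.1 hx with h1 | h1
        · rw [← nth_set A op _ h.2.1, ← nth_set K op _ h.2.2] at h1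
          obtain ⟨b, hb, hb2⟩ := ih _ _ ops h1
          exact ⟨b, List.mem_append_left _ hb, hb2⟩
        · rw [← nth_set A op _ h.2.1, ← nth_set K op _ h.2.2] at h1
          obtain ⟨b, hb, hb2⟩ := ih _ _ _ h1
          exact ⟨b, List.mem_append_right _ hb, hb2⟩
      · rw [leaves, if_neg h]
        exact ⟨(A, K), by simp, hx⟩

/-- point from a list -/
noncomputable def vec (l : List ℝ) (i : ℕ) : ℝ := l.getD i 0

theorem vec0 (a : ℝ) (l : List ℝ) : vec (a :: l) 0 = a := rfl
theorem vec1 (a b : ℝ) (l : List ℝ) : vec (a :: b :: l) 1 = b := rfl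
theorem vec2 (a b c : ℝ) (l : List ℝ) : vec (a :: b :: c :: l) 2 = c := rfl
theorem vec3 (a b c d : ℝ) (l : List ℝ) : vec (a :: b :: c :: d :: l) 3 = d := rfl
theorem vec4 (a b c d e : ℝ) (l : List ℝ) : vec (a :: b :: c :: d :: e :: l) 4 = e := rfl
theorem vec5 (a b c d e f : ℝ) (l : List ℝ) : vec (a :: b :: c :: d :: e :: f :: l) 5 = f := rfl
theorem vec6 (a b c d e f g : ℝ) (l : List ℝ) : vec (a :: b :: c :: d :: e :: f :: g :: l) 6 = g := rfl
theorem vec7 (a b c d e f g h : ℝ) (l : List ℝ) : vec (a :: b :: c :: d :: e :: f :: g :: h :: l) 7 = h := rfl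

/-- the unit cube -/
theorem box_unit (l : List ℝ) (Z : List ℕ) (hZ : Z = l.map (fun _ => 0)) (h : ∀ y ∈ l, 0 ≤ y ∧ y ≤ 1) :
    Box l.length (nth Z) (nth Z) (vec l) := by
  subst hZ
  intro i hi
  have h1 : nth (l.map (fun _ => 0)) i = 0 := by
    clear h
    induction l generalizing i with
    | nil => rfl
    | cons d l ih =>
      cases i with
      | zero => rfl
      | succ i => exact ih i (by simpa using hi)
  have h2 := h (l[i]) (List.getElem_mem hi)
  have h3 : vec l i = l[i] := by
    rw [vec, List.getD_eq_getElem _ _ hi]
  rw [h1, h3]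
  simpa using h2

end Pool.Agent.PB
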