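import Pool.Agent.SL3.Mlb

/-!
# PB : a verified box checker for polynomial inequalities, evaluated by the kernel

`chk` subdivides a dyadic box of `[0,1]^n` and checks on every leaf that a nonnegative combination of the
given polynomials has nonnegative (scaled) Bernstein coefficients.  All Bernstein coefficients of a polynomial
(shifted by a multiple of the constant 1, so that they are natural numbers) are packed in one natural number,
one coefficient per `W` bits.  Only operations which the kernel performs on big numbers are used.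
-/

set_option autoImplicit false

namespace Pool.Agent.PB

/-- Polynomial expressions which are homogeneous in every pair (x_i, u_i), where u_i stands for 1.
`c p m` is the constant `p - m`, `x i a` is `x_i * a`, `u i a` is `u_i * a`. -/
inductive Ax : Type
  | c (p m : ℕ) : Ax
  | x (i : ℕ) (a : Ax) : Ax
  | u (i : ℕ) (a : Ax) : Ax
  | add (a b : Ax) : Ax
  | neg (a : Ax) : Ax
  | mul (a b : Ax) : Ax

/-- value with u_i = 1 -/
def Ax.val (x : ℕ → ℝ) : Ax → ℝ
  | .c p m => (p : ℝ) - m
  | .x i a => x i * a.val x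
  | .u _ a => a.val x
  | .add a b => a.val x + b.val x
  | .neg a => - a.val x
  | .mul a b => a.val x * b.val x

/-- evaluate q, then continue (small numbers only) -/
noncomputable def frc {α : Type} (q : ℕ) (k : ℕ → α) : α :=
  Nat.rec (motive := fun _ => α) (k 0) (fun n _ => k (Nat.succ n)) q

/-- the n-th element of a list, 0 beyond the end -/
noncomputable def nth (l : List ℕ) : ℕ → ℕ := List.rec (motive := fun _ => ℕ → ℕ) (fun _ => 0)
  (fun x _ ih n => cond (Nat.beq n 0) x (ih (Nat.sub n 1))) l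

/-- positive and negative part of an expression, x_i = a_i + (a_i + 1) 2^(h_i), u_i = 2^(k_i) (1 + 2^(h_i)) -/
noncomputable def kv {α : Type} (A K H : List ℕ) (e : Ax) : (ℕ → ℕ → α) → α :=
  Ax.rec (motive := fun _ => (ℕ → ℕ → α) → α)
    (fun p m k => k p m)
    (fun i _ ih k => ih (fun p m => frc (nth A i) (fun a => frc (nth H i) (fun h =>
      k (Nat.add (Nat.mul p a) (Nat.shiftLeft (Nat.mul p (Nat.succ a)) h))
        (Nat.add (Nat.mul m a) (Nat.shiftLeft (Nat.mul m (Nat.succ a)) h))))))
    (fun i _ ih k => ih (fun p m => frc (nth K i) (fun b => frc (nth H i) (fun h =>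
      k (Nat.shiftLeft (Nat.add p (Nat.shiftLeft p h)) b)
        (Nat.shiftLeft (Nat.add m (Nat.shiftLeft m h)) b)))))
    (fun _ _ iha ihb k => iha (fun p m => ihb (fun q l => k (Nat.add p q) (Nat.add m l))))
    (fun _ ih k => ih (fun p m => k m p))
    (fun _ _ iha ihb k => iha (fun p m => ihb (fun q l =>
      k (Nat.add (Nat.mul p q) (Nat.mul m l)) (Nat.add (Nat.mul p l) (Nat.mul m q)))))
    e

/-- positive and negative part at x = u = 1 -/
noncomputable def one {α : Type} (e : Ax) : (ℕ → ℕ → α) → α :=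
  Ax.rec (motive := fun _ => (ℕ → ℕ → α) → α)
    (fun p m k => k p m)
    (fun _ _ ih k => ih k)
    (fun _ _ ih k => ih k)
    (fun _ _ iha ihb k => iha (fun p m => ihb (fun q l => frc (Nat.add p q) (fun P => frc (Nat.add m l) (fun M => k P M)))))
    (fun _ ih k => ih (fun p m => k m p))
    (fun _ _ iha ihb k => iha (fun p m => ihb (fun q l =>
      frc (Nat.add (Nat.mul p q) (Nat.mul m l)) (fun P => frc (Nat.add (Nat.mul p l) (Nat.mul m q)) (fun M => k P M)))))
    e

/-- add 1 to the i-th entry; `none`-like result `[]` beyond the end is detected by the final comparison -/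
noncomputable def inc (l : List ℕ) : ℕ → List ℕ := List.rec (motive := fun _ => ℕ → List ℕ) (fun _ => [])
  (fun x t ih i => cond (Nat.beq i 0) (Nat.succ x :: t) (x :: ih (Nat.sub i 1))) l

/-- equality of lists -/
noncomputable def leq (l : List ℕ) : List ℕ → Bool := List.rec (motive := fun _ => List ℕ → Bool)
  (fun r => List.rec (motive := fun _ => Bool) true (fun _ _ _ => false) r)
  (fun x _ ih r => List.rec (motive := fun _ => Bool) false (fun y s _ => cond (Nat.beq x y) (ih s) false) r) l

/-- entrywise sum -/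
noncomputable def ladd (l : List ℕ) : List ℕ → List ℕ := List.rec (motive := fun _ => List ℕ → List ℕ)
  (fun _ => [])
  (fun x _ ih r => List.rec (motive := fun _ => List ℕ) [] (fun y s _ => Nat.add x y :: ih s) r) l

/-- the entries, forced -/
noncomputable def lfrc {α : Type} (l : List ℕ) : (List ℕ → α) → α := List.rec (motive := fun _ => (List ℕ → α) → α)
  (fun k => k []) (fun x _ ih k => frc x (fun y => ih (fun s => k (y :: s)))) l

/-- degrees; zs = list of n zeros -/
noncomputable def hd (zs : List ℕ) (e : Ax) : (List ℕ → Bool) → Bool :=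
  Ax.rec (motive := fun _ => (List ℕ → Bool) → Bool)
    (fun _ _ k => k zs)
    (fun i _ ih k => cond (Nat.ble (Nat.succ i) zs.length) (ih (fun l => lfrc (inc l i) k)) false)
    (fun i _ ih k => cond (Nat.ble (Nat.succ i) zs.length) (ih (fun l => lfrc (inc l i) k)) false)
    (fun _ _ iha ihb k => iha (fun l => ihb (fun r => cond (leq l r) (k l) false)))
    (fun _ ih k => ih k)
    (fun _ _ iha ihb k => iha (fun l => ihb (fun r => lfrc (ladd l r) k)))
    e

/-- 1 + 2^T + ... + 2^(T(q-1)) -/
noncomputable def geo (T q : ℕ) : ℕ := Nat.div (Nat.sub (Nat.pow 2 (Nat.mul T q)) 1) (Nat.sub (Nat.pow 2 T) 1)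

/-- the masks of a variable: h = shift of the variable, T = shift of the next one, q = number of blocks -/
noncomputable def msk (h T q : ℕ) : ℕ → List ℕ → List ℕ := fun c =>
  Nat.rec (motive := fun _ => List ℕ → List ℕ) (fun acc => acc)
    (fun l ih acc => ih (Nat.shiftLeft (Nat.mul (Nat.sub (Nat.pow 2 h) 1) (geo T q)) (Nat.mul h l) :: acc)) c

/-- shifts of the variables -/
noncomputable def shs (ds : List ℕ) : ℕ → List ℕ := List.rec (motive := fun _ => ℕ → List ℕ) (fun _ => [])
  (fun d _ ih h => h :: ih (Nat.mul h (Nat.succ d))) ds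

/-- total number of bits -/
noncomputable def tot (ds : List ℕ) : ℕ → ℕ := List.rec (motive := fun _ => ℕ → ℕ) (fun h => h)
  (fun d _ ih h => ih (Nat.mul h (Nat.succ d))) ds

/-- data of the variables: (shift :: degree :: masks) -/
noncomputable def dat {α : Type} (TB : ℕ) (ds : List ℕ) : ℕ → (List (List ℕ) → α) → α :=
  List.rec (motive := fun _ => ℕ → (List (List ℕ) → α) → α) (fun _ k => k [])
  (fun d _ ih h k => frc (Nat.mul h (Nat.succ d)) (fun T =>
    ih T (fun r => k ((h :: d :: msk h T (Nat.div TB T) (Nat.succ d) []) :: r)))) ds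

/-- n-th list -/
noncomputable def nthl (l : List (List ℕ)) : ℕ → List ℕ := List.rec (motive := fun _ => ℕ → List ℕ) (fun _ => [])
  (fun x _ ih n => cond (Nat.beq n 0) x (ih (Nat.sub n 1))) l

/-- left half: t -> 2 t + s -/
noncomputable def lft (h N : ℕ) (ms : List ℕ) : ℕ → ℕ := List.rec (motive := fun _ => ℕ → ℕ) (fun acc => acc)
  (fun m _ ih acc => ih (Nat.add (Nat.add (Nat.shiftLeft acc 1) (Nat.shiftLeft acc h)) (Nat.land N m))) ms

/-- r (1 + 2^(h+1)) -/
noncomputable def dup (h r : ℕ) : ℕ := Nat.add r (Nat.shiftLeft r (Nat.succ h))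

/-- right half: s -> 2 s + t -/
noncomputable def rgt (h N : ℕ) (ms : List ℕ) : ℕ → ℕ := List.rec (motive := fun _ => ℕ → ℕ) (fun _ => 0)
  (fun m _ ih s => Nat.add (dup h (ih (Nat.add s h))) (Nat.shiftRight (Nat.land N m) s)) ms

/-- all halves -/
noncomputable def spl {α : Type} (h : ℕ) (ms : List ℕ) (Ns : List ℕ) : (List ℕ → List ℕ → α) → α :=
  List.rec (motive := fun _ => (List ℕ → List ℕ → α) → α) (fun k => k [] [])
    (fun N _ ih k => ih (fun L R => k (lft h N ms 0 :: L) (rgt h N ms 0 :: R))) Ns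

/-- sum of l_t N_t -/
noncomputable def lin (ls : List ℕ) : List ℕ → ℕ → ℕ := List.rec (motive := fun _ => List ℕ → ℕ → ℕ) (fun _ acc => acc)
  (fun l _ ih Ns acc => List.rec (motive := fun _ => ℕ) acc
    (fun N s _ => ih s (cond (Nat.beq l 0) acc (Nat.add acc (cond (Nat.beq l 1) N (Nat.mul l N))))) Ns) ls

/-- test of a leaf; l = delta :: lambdas -/
noncomputable def leaf (W sd EE HM : ℕ) (Os Bs : List ℕ) (l Ns : List ℕ) (K : ℕ) : Bool :=
  List.rec (motive := fun _ => Bool) false (fun δ ls _ =>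
    cond (Nat.ble (Nat.succ (Nat.shiftLeft (lin ls Bs (lin ls Os δ)) (Nat.add K sd))) (Nat.pow 2 (Nat.sub W 1)))
      ((fun R => (fun L => cond (Nat.ble R L) (Nat.beq (Nat.land (Nat.sub L R) HM) 0) false) (lin ls Ns 0))
        (Nat.mul EE (Nat.shiftLeft (lin ls Os δ) K))) false) l

/-- the run: remaining code + 1, or 0 -/
noncomputable def run (W n sd lb EE HM : ℕ) (Os Bs : List ℕ) (V tab : List (List ℕ)) (fuel : ℕ) : List ℕ → ℕ → ℕ → ℕ :=
  Nat.rec (motive := fun _ => List ℕ → ℕ → ℕ → ℕ) (fun _ _ _ => 0)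
    (fun _ ih Ns K q => frc (Nat.mod q 256) (fun op => frc (Nat.div q 256) (fun q' =>
      cond (Nat.ble (Nat.succ op) n)
        (frc (Nat.add K (nth (nthl V op) 1)) (fun K' => cond (Nat.ble (Nat.add K' lb) W)
          (spl (nth (nthl V op) 0) (nthl V op).tail.tail Ns (fun L R =>
            frc (ih L K' q') (fun r => cond (Nat.beq r 0) 0 (ih R K' (Nat.sub r 1))))) 0))
        (cond (leaf W sd EE HM Os Bs (nthl tab (Nat.sub op n)) Ns K) (Nat.succ q') 0)))) fuel

/-- product of (1 + 2^(h_i))^(d_i) -/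
noncomputable def eex (ds : List ℕ) : ℕ → ℕ → ℕ := List.rec (motive := fun _ => ℕ → ℕ → ℕ) (fun _ acc => acc)
  (fun d _ ih h acc => ih (Nat.mul h (Nat.succ d)) (Nat.mul acc (Nat.pow (Nat.succ (Nat.pow 2 h)) d))) ds

/-- sum of the entries -/
noncomputable def sm (l : List ℕ) : ℕ := List.rec (motive := fun _ => ℕ) 0 (fun x _ ih => Nat.add x ih) l

/-- scalar product -/
noncomputable def dot (l : List ℕ) : List ℕ → ℕ := List.rec (motive := fun _ => List ℕ → ℕ) (fun _ => 0)
  (fun x _ ih r => List.rec (motive := fun _ => ℕ) 0 (fun y s _ => Nat.add (Nat.mul x y) (ih s)) r) l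

/-! ### direct evaluation: the value of every subexpression is a closed term, the kernel keeps it -/

namespace Dv

/-- an integer as sign and absolute value: `p x = x`, `n x = -x` -/
inductive Sg : Type
  | p (x : ℕ) : Sg
  | n (x : ℕ) : Sg

/-- `p - m` -/
noncomputable def zc (p m : ℕ) : Sg :=
  Bool.rec (motive := fun _ => Sg) (.n (Nat.sub m p)) (.p (Nat.sub p m)) (Nat.ble m p)

/-- sum -/
noncomputable def zadd (a b : Sg) : Sg := Sg.rec (motive := fun _ => Sg)
  (fun x => Sg.rec (motive := fun _ => Sg) (fun y => .p (Nat.add x y)) (fun y => zc x y) b)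
  (fun x => Sg.rec (motive := fun _ => Sg) (fun y => zc y x) (fun y => .n (Nat.add x y)) b) a

/-- product -/
noncomputable def zmul (a b : Sg) : Sg := Sg.rec (motive := fun _ => Sg)
  (fun x => Sg.rec (motive := fun _ => Sg) (fun y => .p (Nat.mul x y)) (fun y => .n (Nat.mul x y)) b)
  (fun x => Sg.rec (motive := fun _ => Sg) (fun y => .n (Nat.mul x y)) (fun y => .p (Nat.mul x y)) b) a

/-- opposite -/
noncomputable def zneg (a : Sg) : Sg := Sg.rec (motive := fun _ => Sg) (fun x => .n x) (fun x => .p x) a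

/-- the absolute value is mapped by `f` -/
noncomputable def zmp (f : ℕ → ℕ) (a : Sg) : Sg := Sg.rec (motive := fun _ => Sg) (fun x => .p (f x)) (fun x => .n (f x)) a

/-- `p (a + (a + 1) 2^h)` -/
noncomputable def fx (a h p : ℕ) : ℕ := Bool.rec (motive := fun _ => ℕ)
  (Nat.add (Nat.mul p a) (Nat.shiftLeft (Nat.mul p (Nat.succ a)) h)) (Nat.shiftLeft p h) (Nat.beq a 0)

/-- `p 2^b (1 + 2^h)` -/
noncomputable def fu (b h p : ℕ) : ℕ := Bool.rec (motive := fun _ => ℕ)
  (Nat.shiftLeft (Nat.add p (Nat.shiftLeft p h)) b) (Nat.add p (Nat.shiftLeft p h)) (Nat.beq b 0)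

/-- the value at `x_i = a_i + (a_i + 1) 2^(h_i)`, `u_i = 2^(k_i) (1 + 2^(h_i))` -/
noncomputable def dz (A K H : List ℕ) (e : Ax) : Sg :=
  Ax.rec (motive := fun _ => Sg)
    (fun p m => zc p m)
    (fun i _ r => zmp (fx (nth A i) (nth H i)) r)
    (fun i _ r => zmp (fu (nth K i) (nth H i)) r)
    (fun _ _ r s => zadd r s)
    (fun _ r => zneg r)
    (fun _ _ r s => zmul r s)
    e

/-- positive and negative part at x = u = 1 -/
noncomputable def dn (e : Ax) : ℕ × ℕ :=
  Ax.rec (motive := fun _ => ℕ × ℕ)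
    (fun p m => (p, m))
    (fun _ _ r => r)
    (fun _ _ r => r)
    (fun _ _ r s => (Nat.add r.1 s.1, Nat.add r.2 s.2))
    (fun _ r => (r.2, r.1))
    (fun _ _ r s => (Nat.add (Nat.mul r.1 s.1) (Nat.mul r.2 s.2), Nat.add (Nat.mul r.1 s.2) (Nat.mul r.2 s.1)))
    e

/-- `z + X`, at least 0 -/
noncomputable def zq (X : ℕ) (z : Sg) : ℕ :=
  Sg.rec (motive := fun _ => ℕ) (fun x => Nat.add x X) (fun x => Nat.sub X x) z

/-- larger than all packed degrees -/
noncomputable def gB (n : ℕ) : ℕ := Nat.pow 2 (Nat.mul 16 (Nat.succ n))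

/-- weight of the variable `i` -/
noncomputable def gw (n i : ℕ) : ℕ := Nat.add (Nat.pow 2 (Nat.mul 16 i)) (Nat.pow 2 (Nat.mul 16 n))

/-- degrees, packed, the total degree on top; at least `gB n` if `e` is not homogeneous -/
noncomputable def gd (n : ℕ) (e : Ax) : ℕ :=
  Ax.rec (motive := fun _ => ℕ) (fun _ _ => 0)
    (fun i _ r => Bool.rec (motive := fun _ => ℕ) (gB n) (Nat.add r (gw n i)) (Nat.ble (Nat.succ i) n))
    (fun i _ r => Bool.rec (motive := fun _ => ℕ) (gB n) (Nat.add r (gw n i)) (Nat.ble (Nat.succ i) n))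
    (fun _ _ r s => Bool.rec (motive := fun _ => ℕ) (gB n) r (Nat.beq r s))
    (fun _ r => r) (fun _ _ r s => Nat.add r s) e

/-- packed degrees of a list -/
noncomputable def ge (n : ℕ) (ds : List ℕ) : ℕ → ℕ := List.rec (motive := fun _ => ℕ → ℕ) (fun _ => 0)
  (fun d _ ih i => Nat.add (Nat.mul d (gw n i)) (ih (Nat.succ i))) ds

/-- fast test of the degrees -/
noncomputable def hq (n : ℕ) (ds : List ℕ) (f : Ax) : Bool :=
  cond (Nat.beq (gd n f) (ge n ds 0)) (cond (Nat.ble (Nat.succ (ge n ds 0)) (gB n)) (Nat.beq ds.length n) false) false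

end Dv

/-- offsets and bounds -/
noncomputable def obs {α : Type} (fs : List Ax) : (List ℕ → List ℕ → α) → α :=
  List.rec (motive := fun _ => (List ℕ → List ℕ → α) → α) (fun k => k [] [])
    (fun f _ ih k => frc (Dv.dn f).2 (fun m => frc (Nat.add (Dv.dn f).1 m) (fun b => ih (fun os bs => k (m :: os) (b :: bs))))) fs

/-- packed polynomials -/
noncomputable def ini {α : Type} (A K H : List ℕ) (K0 EE : ℕ) (fs : List Ax) : List ℕ → (List ℕ → α) → α :=
  List.rec (motive := fun _ => List ℕ → (List ℕ → α) → α) (fun _ k => k [])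
    (fun f _ ih os k => ih os.tail (fun Ns =>
      k (Dv.zq (Nat.mul EE (Nat.shiftLeft (nth os 0) K0)) (Dv.dz A K H f) :: Ns))) fs

/-- all expressions are homogeneous of degree ds -/
noncomputable def hds (zs ds : List ℕ) (fs : List Ax) : Bool :=
  List.rec (motive := fun _ => Bool) true (fun f _ ih => cond (cond (Dv.hq zs.length ds f) true (hd zs f (fun l => leq l ds))) ih false) fs

/-- the box is contained in the unit cube -/
noncomputable def bok (A : List ℕ) : List ℕ → Bool := List.rec (motive := fun _ => List ℕ → Bool) (fun _ => true)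
  (fun a _ ih K => cond (Nat.ble (Nat.succ a) (Nat.pow 2 (nth K 0))) (ih K.tail) false) A

/-- the check after the tests of the degrees -/
noncomputable def Dv.chr (W : ℕ) (ds : List ℕ) (fs : List Ax) (tab : List (List ℕ)) (A K : List ℕ) (fuel code : ℕ) : Bool :=
  frc (tot ds W) (fun TB => lfrc (shs ds W) (fun H => frc (sm ds) (fun sd => frc (dot K ds) (fun K0 =>
    dat TB ds W (fun V => obs fs (fun Os Bs => frc (Nat.add (Nat.succ (Nat.log2 (sm Bs))) sd) (fun lb =>
      ini A K H K0 (eex ds W 1) fs Os (fun Ns =>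
        Nat.beq (run W ds.length sd lb (eex ds W 1) (Nat.mul (Nat.pow 2 (Nat.sub W 1)) (geo W (Nat.div TB W))) Os Bs V tab
          fuel Ns K0 code) 1))))))))

/-- the check -/
noncomputable def chk (W : ℕ) (ds : List ℕ) (fs : List Ax) (tab : List (List ℕ)) (A K : List ℕ) (fuel code : ℕ) : Bool :=
  cond (cond (Nat.ble 1 W) (cond (bok A K) (hds (ds.map (fun _ => 0)) ds fs) false) false)
    (Dv.chr W ds fs tab A K fuel code) false

end Pool.Agent.PB
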