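import Pool.Agent.PB.Poly

set_option autoImplicit false

open MvPolynomial

namespace Pool.Agent.PB

variable {n : ℕ}

/-- s_i -> 2 s_i + t_i -/
noncomputable def fR (i : Fin n) : MP n →ₐ[ℕ] MP n :=
  aeval (fun v => if v = (true, i) then 2 * X (true, i) + X (false, i) else X v)

/-- t_i -> 2 t_i + s_i -/
noncomputable def fL (i : Fin n) : MP n →ₐ[ℕ] MP n :=
  aeval (fun v => if v = (false, i) then 2 * X (false, i) + X (true, i) else X v)

theorem ev_fR {R : Type} [CommSemiring R] (i : Fin n) (s t : ℕ → R) (P : MP n) :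
    ev s t (fR i P) = ev (Function.update s i (2 * s i + t i)) t P := by
  rw [fR, comp_aeval_apply]
  rw [ev]
  congr 2
  funext v
  obtain ⟨b, j⟩ := v
  cases b
  · simp
  · by_cases h : j = i
    · subst h
      simp
    · have h' : (j : ℕ) ≠ i := fun h0 => h (Fin.ext h0)
      simp [h, Function.update_of_ne h']

theorem ev_fL {R : Type} [CommSemiring R] (i : Fin n) (s t : ℕ → R) (P : MP n) :
    ev s t (fL i P) = ev s (Function.update t i (2 * t i + s i)) P := by
  rw [fL, comp_aeval_apply]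
  rw [ev]
  congr 2
  funext v
  obtain ⟨b, j⟩ := v
  cases b
  · by_cases h : j = i
    · subst h
      simp
    · have h' : (j : ℕ) ≠ i := fun h0 => h (Fin.ext h0)
      simp [h, Function.update_of_ne h']
  · simp

theorem fR_EP (d : ℕ → ℕ) (i : Fin n) : fR i (EP n d) = 2 ^ d i • EP n d := by
  have h1 : ∀ j : Fin n, fR i ((X (false, j) + X (true, j)) ^ d j) =
      (if j = i then (2 : MP n) ^ d i else 1) * (X (false, j) + X (true, j)) ^ d j := by
    intro j
    by_cases h : j = i
    · subst h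
      rw [if_pos rfl, ← mul_pow]
      simp only [fR, map_pow, map_add, aeval_X, Prod.mk.injEq, if_true, and_true, if_false,
        Bool.false_eq_true]
      congr 1
      ring
    · rw [if_neg h, one_mul]
      simp [fR, h]
  rw [EP, map_prod, Finset.prod_congr rfl (fun j _ => h1 j), Finset.prod_mul_distrib, Finset.prod_ite_eq' Finset.univ i]
  simp only [Finset.mem_univ, if_true]
  rw [nsmul_eq_mul]
  push_cast
  ring

theorem fL_EP (d : ℕ → ℕ) (i : Fin n) : fL i (EP n d) = 2 ^ d i • EP n d := by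
  have h1 : ∀ j : Fin n, fL i ((X (false, j) + X (true, j)) ^ d j) =
      (if j = i then (2 : MP n) ^ d i else 1) * (X (false, j) + X (true, j)) ^ d j := by
    intro j
    by_cases h : j = i
    · subst h
      rw [if_pos rfl, ← mul_pow]
      simp only [fL, map_pow, map_add, aeval_X, Prod.mk.injEq, if_true, and_true, if_false,
        Bool.true_eq_false]
      congr 1
      ring
    · rw [if_neg h, one_mul]
      simp [fL, h]
  rw [EP, map_prod, Finset.prod_congr rfl (fun j _ => h1 j), Finset.prod_mul_distrib, Finset.prod_ite_eq' Finset.univ i]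
  simp only [Finset.mem_univ, if_true]
  rw [nsmul_eq_mul]
  push_cast
  ring

theorem Dom.fR {d : ℕ → ℕ} {B : ℕ} {P : MP n} (h : Dom d B P) (i : Fin n) : Dom d (B * 2 ^ d i) (fR i P) := by
  obtain ⟨Q, hQ⟩ := h
  refine ⟨Pool.Agent.PB.fR i Q, ?_⟩
  rw [← map_add, hQ, map_nsmul, fR_EP, smul_smul]

theorem Dom.fL {d : ℕ → ℕ} {B : ℕ} {P : MP n} (h : Dom d B P) (i : Fin n) : Dom d (B * 2 ^ d i) (fL i P) := by
  obtain ⟨Q, hQ⟩ := h
  refine ⟨Pool.Agent.PB.fL i Q, ?_⟩
  rw [← map_add, hQ, map_nsmul, fL_EP, smul_smul]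

/-- the mask for degree l -/
noncomputable def mk (h T q l : ℕ) : ℕ := Nat.mul (Nat.shiftLeft (Nat.sub (Nat.pow 2 h) 1) (Nat.mul h l)) (geo T q)

theorem msk_eq (h T q : ℕ) (c : ℕ) (acc : List ℕ) : msk h T q c acc = (List.range c).map (mk h T q) ++ acc := by
  induction c generalizing acc with
  | zero => rfl
  | succ c ih =>
    have h1 : Nat.shiftLeft (Nat.mul (Nat.sub (Nat.pow 2 h) 1) (geo T q)) (Nat.mul h c) = mk h T q c := by
      show ((2 ^ h - 1) * geo T q) <<< (h * c) = ((2 ^ h - 1) <<< (h * c)) * geo T q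
      rw [Nat.shiftLeft_eq, Nat.shiftLeft_eq, Nat.mul_right_comm]
    have : msk h T q (c + 1) acc = msk h T q c (Nat.shiftLeft (Nat.mul (Nat.sub (Nat.pow 2 h) 1) (geo T q)) (Nat.mul h c) :: acc) :=
      rfl
    rw [h1] at this
    rw [this, ih, List.range_succ, List.map_append, List.append_assoc]
    rfl

theorem lft_append (h N : ℕ) (l1 l2 : List ℕ) (acc : ℕ) :
    lft h N (l1 ++ l2) acc = lft h N l2 (lft h N l1 acc) := by
  induction l1 generalizing acc with
  | nil => rfl
  | cons m l1 ih => exact ih _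

theorem lft_range (h N : ℕ) (f : ℕ → ℕ) (c : ℕ) :
    lft h N ((List.range c).map f) 0 = ∑ l ∈ Finset.range c, Nat.land N (f l) * (2 + 2 ^ h) ^ (c - 1 - l) := by
  induction c with
  | zero => simp [lft]
  | succ c ih =>
    rw [List.range_succ, List.map_append, lft_append, ih, Finset.sum_range_succ]
    have : ∀ acc, lft h N (List.map f [c]) acc = acc <<< 1 + acc <<< h + Nat.land N (f c) := fun acc => rfl
    rw [this, Nat.shiftLeft_eq, Nat.shiftLeft_eq]
    have h2 : c + 1 - 1 - c = 0 := by omega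
    rw [h2, pow_zero, mul_one, pow_one, ← mul_add, Finset.sum_mul]
    congr 1
    refine Finset.sum_congr rfl (fun l hl => ?_)
    have h3 : c + 1 - 1 - l = (c - 1 - l) + 1 := by
      have := Finset.mem_range.1 hl
      omega
    rw [h3, pow_succ, mul_assoc]

theorem rgt_range (h N : ℕ) (c : ℕ) (f : ℕ → ℕ) (s : ℕ) :
    rgt h N ((List.range c).map f) s =
      ∑ l ∈ Finset.range c, (Nat.land N (f l)) >>> (s + h * l) * (1 + 2 * 2 ^ h) ^ l := by
  induction c generalizing f s with
  | zero => simp [rgt]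
  | succ c ih =>
    rw [List.range_succ_eq_map, List.map_cons, List.map_map]
    have h1 : ∀ (m : ℕ) (ms : List ℕ) (s : ℕ), rgt h N (m :: ms) s =
      rgt h N ms (s + h) + (rgt h N ms (s + h)) <<< (h + 1) + (Nat.land N m) >>> s := fun _ _ _ => rfl
    rw [h1, ih, Finset.sum_range_succ', Nat.shiftLeft_eq]
    congr 1
    · rw [show ∀ x : ℕ, x + x * 2 ^ (h + 1) = x * (1 + 2 * 2 ^ h) from fun x => by ring, Finset.sum_mul]
      refine Finset.sum_congr rfl (fun l _ => ?_)
      rw [pow_succ, mul_assoc]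
      congr 2
      ring_nf
    · simp

theorem kap_filter (W : ℕ) (hW : 0 < W) {d : ℕ → ℕ} {B : ℕ} {P : MP n} (h : Dom d B P) (hB : B * 2 ^ sdeg n d < 2 ^ W)
    (i : Fin n) (l : ℕ) (hl : l ≤ d i) (q : ℕ) (hq : st d n = st d (i + 1) * q) :
    Nat.land (kap W d P) (mk (W * st d i) (W * st d (i + 1)) q l) =
      ∑ k ∈ P.support with k (true, i) = l, coeff k P * 2 ^ (W * ix d k) := by
  rw [kap_pk W h, hq, mk, land_mask hW d _ i q l hl (fun j _ => dg_lt h hB j), ← hq, pk_dg W h]
  refine Finset.sum_congr ?_ (fun _ _ => rfl)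
  ext k
  simp only [Finset.mem_filter]
  constructor
  · rintro ⟨h1, h2⟩
    exact ⟨h1, by rw [← h2, ix_ee (h.hom k h1)]⟩
  · rintro ⟨h1, h2⟩
    exact ⟨h1, by rw [ix_ee (h.hom k h1), h2]⟩

theorem lft_eq (W : ℕ) (hW : 0 < W) {d : ℕ → ℕ} {B : ℕ} {P : MP n} (h : Dom d B P) (hB : B * 2 ^ sdeg n d < 2 ^ W)
    (i : Fin n) (q : ℕ) (hq : st d n = st d (i + 1) * q) :
    lft (W * st d i) (kap W d P) (msk (W * st d i) (W * st d (i + 1)) q (d i + 1) []) 0 = kap W d (fL i P) := by
  rw [msk_eq, List.append_nil, lft_range]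
  conv_rhs => rw [kap, ev_fL, ev_sum]
  have h1 : ∀ l ∈ Finset.range (d i + 1), Nat.land (kap W d P) (mk (W * st d i) (W * st d (i + 1)) q l) *
      (2 + 2 ^ (W * st d i)) ^ (d i + 1 - 1 - l) =
      ∑ k ∈ P.support with k (true, i) = l, coeff k P * 2 ^ (W * ix d k) * (2 + 2 ^ (W * st d i)) ^ k (false, i) := by
    intro l hl
    rw [kap_filter W hW h hB i l (by have := Finset.mem_range.1 hl; omega) q hq, Finset.sum_mul]
    refine Finset.sum_congr rfl (fun k hk => ?_)
    rw [Finset.mem_filter] at hk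
    have h2 := h.hom k hk.1 i
    congr 2
    omega
  rw [Finset.sum_congr rfl h1, Finset.sum_fiberwise_of_maps_to (s := P.support) (t := Finset.range (d i + 1))
    (g := fun k => k (true, i)) (fun k hk => Finset.mem_range.2 (by have := h.hom k hk i; omega))]
  refine Finset.sum_congr rfl (fun k _ => ?_)
  rw [Nat.cast_id, mul_assoc, Finset.prod_mul_distrib]
  congr 2
  · simp only [← pow_mul]
    rw [Finset.prod_pow_eq_pow_sum, ix, Finset.mul_sum]
    congr 1
    exact Finset.sum_congr rfl (fun i _ => by ring)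
  · rw [Finset.prod_eq_single i]
    · simp
    · intro j _ hj
      have h' : (j : ℕ) ≠ i := fun h0 => hj (Fin.ext h0)
      simp [Function.update_of_ne h']
    · intro hi
      exact absurd (Finset.mem_univ i) hi

theorem rgt_eq (W : ℕ) (hW : 0 < W) {d : ℕ → ℕ} {B : ℕ} {P : MP n} (h : Dom d B P) (hB : B * 2 ^ sdeg n d < 2 ^ W)
    (i : Fin n) (q : ℕ) (hq : st d n = st d (i + 1) * q) :
    rgt (W * st d i) (kap W d P) (msk (W * st d i) (W * st d (i + 1)) q (d i + 1) []) 0 = kap W d (fR i P) := by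
  rw [msk_eq, List.append_nil, rgt_range]
  conv_rhs => rw [kap, ev_fR, ev_sum]
  have hpr : ∀ k : Bool × Fin n →₀ ℕ, 2 ^ (W * ix d k) = (∏ j : Fin n, (if j = i then 1 else
      (2 ^ (W * st d j)) ^ k (true, j))) * 2 ^ (W * st d i * k (true, i)) := by
    intro k
    have e1 : 2 ^ (W * st d i * k (true, i)) = ∏ j : Fin n, (if j = i then (2 ^ (W * st d j)) ^ k (true, j) else 1) := by
      rw [Finset.prod_ite_eq' Finset.univ i]
      simp only [Finset.mem_univ, if_true]
      rw [pow_mul]
    rw [e1, ← Finset.prod_mul_distrib]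
    have e2 : 2 ^ (W * ix d k) = ∏ j : Fin n, (2 ^ (W * st d j)) ^ k (true, j) := by
      simp only [← pow_mul]
      rw [Finset.prod_pow_eq_pow_sum, ix, Finset.mul_sum]
      congr 1
      exact Finset.sum_congr rfl (fun i _ => by ring)
    rw [e2]
    refine Finset.prod_congr rfl (fun j _ => ?_)
    by_cases hj : j = i <;> simp [hj]
  have h1 : ∀ l ∈ Finset.range (d i + 1), Nat.land (kap W d P) (mk (W * st d i) (W * st d (i + 1)) q l) >>>
      (0 + W * st d i * l) * (1 + 2 * 2 ^ (W * st d i)) ^ l =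
      ∑ k ∈ P.support with k (true, i) = l, coeff k P * (∏ j : Fin n, (if j = i then 1 else
      (2 ^ (W * st d j)) ^ k (true, j))) * (1 + 2 * 2 ^ (W * st d i)) ^ k (true, i) := by
    intro l hl
    rw [kap_filter W hW h hB i l (by have := Finset.mem_range.1 hl; omega) q hq]
    have e3 : ∑ k ∈ P.support with k (true, i) = l, coeff k P * 2 ^ (W * ix d k) =
        (∑ k ∈ P.support with k (true, i) = l, coeff k P * (∏ j : Fin n, (if j = i then 1 else
          (2 ^ (W * st d j)) ^ k (true, j)))) * 2 ^ (W * st d i * l) := by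
      rw [Finset.sum_mul]
      refine Finset.sum_congr rfl (fun k hk => ?_)
      rw [Finset.mem_filter] at hk
      rw [hpr, hk.2]
      ring
    rw [e3, zero_add, Nat.shiftRight_eq_div_pow, Nat.mul_div_cancel _ (by positivity), Finset.sum_mul]
    refine Finset.sum_congr rfl (fun k hk => ?_)
    rw [Finset.mem_filter] at hk
    rw [hk.2]
  rw [Finset.sum_congr rfl h1, Finset.sum_fiberwise_of_maps_to (s := P.support) (t := Finset.range (d i + 1))
    (g := fun k => k (true, i)) (fun k hk => Finset.mem_range.2 (by have := h.hom k hk i; omega))]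
  refine Finset.sum_congr rfl (fun k _ => ?_)
  rw [Nat.cast_id, mul_assoc]
  congr 1
  have e4 : (1 + 2 * 2 ^ (W * st d i)) ^ k (true, i) = ∏ j : Fin n, (if j = i then
      (1 + 2 * 2 ^ (W * st d i)) ^ k (true, i) else 1) := by
    rw [Finset.prod_ite_eq' Finset.univ i]
    simp
  rw [e4, ← Finset.prod_mul_distrib]
  refine Finset.prod_congr rfl (fun j _ => ?_)
  by_cases hj : j = i
  · subst hj
    simp [add_comm]
  · have h' : (j : ℕ) ≠ i := fun h0 => hj (Fin.ext h0)
    simp [hj, Function.update_of_ne h']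

end Pool.Agent.PB
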