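import Pool.Agent.PB.Run

set_option autoImplicit false

open MvPolynomial

namespace Pool.Agent.PB

variable {n : ℕ}

theorem nth_nil (i : ℕ) : nth [] i = 0 := rfl
theorem nth_cons (x : ℕ) (l : List ℕ) (i : ℕ) : nth (x :: l) i = cond (Nat.beq i 0) x (nth l (i - 1)) := rfl

theorem nth_zero (x : ℕ) (l : List ℕ) : nth (x :: l) 0 = x := rfl
theorem nth_succ (x : ℕ) (l : List ℕ) (i : ℕ) : nth (x :: l) (i + 1) = nth l i := rfl

theorem nth_of_ge (l : List ℕ) (i : ℕ) (h : l.length ≤ i) : nth l i = 0 := by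
  induction l generalizing i with
  | nil => rfl
  | cons x l ih =>
    cases i with
    | zero => simp at h
    | succ i => exact ih i (by simpa using h)

theorem nthl_zero (x : List ℕ) (l : List (List ℕ)) : nthl (x :: l) 0 = x := rfl
theorem nthl_succ (x : List ℕ) (l : List (List ℕ)) (i : ℕ) : nthl (x :: l) (i + 1) = nthl l i := rfl

theorem nthl_mem (l : List (List ℕ)) (i : ℕ) : nthl l i = [] ∨ nthl l i ∈ l := by
  induction l generalizing i with
  | nil => exact Or.inl rfl
  | cons x l ih =>
    cases i with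
    | zero => right; exact List.mem_cons_self
    | succ i =>
      rcases ih i with h | h
      · exact Or.inl h
      · right; exact List.mem_cons_of_mem _ h

theorem lfrc_eq {α : Type} (l : List ℕ) (k : List ℕ → α) : lfrc l k = k l := by
  induction l generalizing k with
  | nil => rfl
  | cons x l ih =>
    have : lfrc (x :: l) k = frc x (fun y => lfrc l (fun s => k (y :: s))) := rfl
    rw [this, frc_eq, ih]

theorem spl_eq {α : Type} (h : ℕ) (ms Ns : List ℕ) (k : List ℕ → List ℕ → α) :
    spl h ms Ns k = k (Ns.map (fun N => lft h N ms 0)) (Ns.map (fun N => rgt h N ms 0)) := by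
  induction Ns generalizing k with
  | nil => rfl
  | cons N Ns ih =>
    have : spl h ms (N :: Ns) k = spl h ms Ns (fun L R => k (lft h N ms 0 :: L) (rgt h N ms 0 :: R)) := rfl
    rw [this, ih]
    rfl

theorem lin_nil (Ns : List ℕ) (acc : ℕ) : lin [] Ns acc = acc := rfl
theorem lin_cons_nil (l : ℕ) (ls : List ℕ) (acc : ℕ) : lin (l :: ls) [] acc = acc := rfl
theorem lin_cons (l : ℕ) (ls : List ℕ) (N : ℕ) (Ns : List ℕ) (acc : ℕ) :
    lin (l :: ls) (N :: Ns) acc = lin ls Ns (acc + l * N) := by
  have : lin (l :: ls) (N :: Ns) acc =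
    lin ls Ns (cond (Nat.beq l 0) acc (Nat.add acc (cond (Nat.beq l 1) N (Nat.mul l N)))) := rfl
  rw [this]
  congr 1
  rcases Nat.eq_zero_or_pos l with h | h
  · subst h; simp
  · rcases Nat.lt_or_ge 1 l with h1 | h1
    · obtain ⟨m, rfl⟩ : ∃ m, l = m + 2 := ⟨l - 2, by omega⟩
      rfl
    · have : l = 1 := by omega
      subst this
      show acc + N = acc + 1 * N
      ring

theorem lin_acc (ls Ns : List ℕ) (acc : ℕ) : lin ls Ns acc = acc + lin ls Ns 0 := by
  induction ls generalizing Ns acc with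
  | nil => rfl
  | cons l ls ih =>
    cases Ns with
    | nil => rfl
    | cons N Ns =>
      rw [lin_cons, lin_cons, ih, ih Ns (0 + l * N)]
      ring

/-- real combination of functions -/
noncomputable def comb : List ℕ → List ((ℕ → ℝ) → ℝ) → (ℕ → ℝ) → ℝ
  | l :: ls, f :: fs, x => l * f x + comb ls fs x
  | _, _, _ => 0

/-- invariants of a list; items (f, O, B) -/
def InvL (n W : ℕ) (d A k : ℕ → ℕ) (K : ℕ) (its : List (((ℕ → ℝ) → ℝ) × ℕ × ℕ)) (Ns : List ℕ) : Prop :=
  List.Forall₂ (fun a N => Inv n W d A k K a.1 a.2.1 a.2.2 N) its Ns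

theorem InvL.lin {W : ℕ} {d A k : ℕ → ℕ} {K : ℕ} {its : List (((ℕ → ℝ) → ℝ) × ℕ × ℕ)} {Ns : List ℕ}
    (h : InvL n W d A k K its Ns) (ls : List ℕ) :
    ∃ P : MP n, Dom d (lin ls (its.map (·.2.2)) 0 * 2 ^ K) P ∧ kap W d P = lin ls Ns 0 ∧
      ∀ s t : ℕ → ℝ, (∀ i, t i + s i ≠ 0) →
      ev s t P = (comb ls (its.map (·.1)) (pt A k s t) + (lin ls (its.map (·.2.1)) 0 : ℕ)) *
        (2 ^ K * ∏ i : Fin n, (t i + s i) ^ d i) := by
  induction ls generalizing its Ns with
  | nil =>
    refine ⟨0, ⟨0, by simp [lin_nil]⟩, by simp [kap, lin_nil], fun s t _ => ?_⟩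
    simp [comb, lin_nil]
  | cons l ls ih =>
    cases h with
    | nil =>
      refine ⟨0, ⟨0, by simp [lin_cons_nil]⟩, by simp [kap, lin_cons_nil], fun s t _ => ?_⟩
      simp [comb, lin_cons_nil]
    | @cons a N its Ns h1 h2 =>
      obtain ⟨P, hP1, hP2, hP3⟩ := ih h2
      obtain ⟨P', ⟨Q', hQ'⟩, hP'2, hP'3⟩ := h1
      obtain ⟨Q, hQ⟩ := hP1
      refine ⟨l • P' + P, ⟨l • Q' + Q, ?_⟩, ?_, fun s t hst => ?_⟩
      · simp only [List.map_cons]
        rw [lin_cons, lin_acc, zero_add]
        calc l • P' + P + (l • Q' + Q) = l • (P' + Q') + (P + Q) := by rw [smul_add]; abel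
          _ = _ := by rw [hQ', hQ, smul_smul, ← add_smul]; congr 1; ring
      · rw [lin_cons, lin_acc, zero_add, ← hP2, ← hP'2, kap, kap, kap, map_add, map_nsmul, smul_eq_mul]
      · rw [map_add, map_nsmul, hP3 s t hst, hP'3 s t hst]
        simp only [List.map_cons, comb]
        rw [lin_cons, lin_acc ls _ (0 + l * a.2.1)]
        push_cast
        rw [nsmul_eq_mul]
        ring

theorem forall₂_imp_mem {α β : Type} {R S : α → β → Prop} {l : List α} {r : List β} (h : List.Forall₂ R l r)
    (H : ∀ a ∈ l, ∀ b, R a b → S a b) : List.Forall₂ S l r := by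
  induction h with
  | nil => exact List.Forall₂.nil
  | cons h1 h2 ih =>
    exact List.Forall₂.cons (H _ List.mem_cons_self _ h1) (ih (fun a ha b => H a (List.mem_cons_of_mem _ ha) b))

/-- box -/
def Box (n : ℕ) (A k : ℕ → ℕ) (x : ℕ → ℝ) : Prop :=
  ∀ i < n, (A i : ℝ) ≤ 2 ^ k i * x i ∧ 2 ^ k i * x i ≤ A i + 1

theorem leaf_sound {W sd : ℕ} {d A k : ℕ → ℕ} {K : ℕ} {its : List (((ℕ → ℝ) → ℝ) × ℕ × ℕ)} {Ns : List ℕ}
    (hW : 0 < W) (h : InvL n W d A k K its Ns) (hsd : sd = sdeg n d) {l : List ℕ}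
    (hl : leaf W sd (kap W d (EP n d)) (2 ^ (W - 1) * geo W (st d n)) (its.map (·.2.1)) (its.map (·.2.2)) l Ns K = true)
    (x : ℕ → ℝ) (hx : Box n A k x) :
    ∃ (δ : ℕ) (ls : List ℕ), l = δ :: ls ∧ (δ : ℝ) ≤ comb ls (its.map (·.1)) x := by
  cases l with
  | nil => exact absurd hl (by simp [leaf])
  | cons δ ls =>
    refine ⟨δ, ls, rfl, ?_⟩
    have hl' : leaf W sd (kap W d (EP n d)) (2 ^ (W - 1) * geo W (st d n)) (its.map (·.2.1)) (its.map (·.2.2))
        (δ :: ls) Ns K = cond (Nat.ble (Nat.succ (Nat.shiftLeft (lin ls (its.map (·.2.2)) (lin ls (its.map (·.2.1)) δ)) (K + sd)))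
          (2 ^ (W - 1))) (cond (Nat.ble (kap W d (EP n d) * ((lin ls (its.map (·.2.1)) δ) <<< K)) (lin ls Ns 0))
          (Nat.beq (Nat.land (lin ls Ns 0 - kap W d (EP n d) * ((lin ls (its.map (·.2.1)) δ) <<< K))
            (2 ^ (W - 1) * geo W (st d n))) 0) false) false := rfl
    rw [hl'] at hl
    obtain ⟨P, hP1, hP2, hP3⟩ := h.lin ls
    set c := lin ls (its.map (·.2.1)) δ with hc
    rw [lin_acc ls (its.map (·.2.2)) c] at hl
    set b := lin ls (its.map (·.2.2)) 0 with hb
    have h1 : Nat.ble (Nat.succ (Nat.shiftLeft (c + b) (K + sd))) (2 ^ (W - 1)) = true := by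
      by_contra h0
      rw [Bool.not_eq_true] at h0
      rw [h0] at hl
      exact absurd hl (by simp)
    rw [h1, cond_true] at hl
    have h2 : Nat.ble (kap W d (EP n d) * (c <<< K)) (lin ls Ns 0) = true := by
      by_contra h0
      rw [Bool.not_eq_true] at h0
      rw [h0] at hl
      exact absurd hl (by simp)
    rw [h2, cond_true] at hl
    have h3 := Nat.eq_of_beq_eq_true hl
    have h2' := Nat.le_of_ble_eq_true h2
    have h1' : (c + b) * 2 ^ (K + sd) < 2 ^ (W - 1) := by
      have := Nat.le_of_ble_eq_true h1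
      have e : Nat.shiftLeft (c + b) (K + sd) = (c + b) * 2 ^ (K + sd) := Nat.shiftLeft_eq _ _
      rw [e] at this
      exact this
    have e1 : kap W d (EP n d) * (c <<< K) = (c * 2 ^ K) * kap W d (EP n d) := by
      rw [Nat.shiftLeft_eq]; ring
    rw [e1] at h3 h2'
    rw [pow_add, hsd] at h1'
    have hcb : (c * 2 ^ K) * 2 ^ sdeg n d + (b * 2 ^ K) * 2 ^ sdeg n d < 2 ^ (W - 1) := by
      calc _ = (c + b) * (2 ^ K * 2 ^ sdeg n d) := by ring
        _ < _ := h1'
    have h4 := leaf_core (n := n) (s := fun i => 2 ^ k i * x i - A i) (t := fun i => 1 - (2 ^ k i * x i - A i)) hW hP1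
      (by omega) (by omega : c * 2 ^ K * 2 ^ sdeg n d < 2 ^ (W - 1)) (by rw [hP2]; exact h2') (by rw [hP2]; exact h3)
      (fun i hi => by have := (hx i hi).1; linarith) (fun i hi => by have := (hx i hi).2; linarith)
    have h5 : ∀ i, (fun i => 1 - (2 ^ k i * x i - A i)) i + (fun i => 2 ^ k i * x i - A i) i = (1 : ℝ) := fun i => by
      simp
    rw [hP3 _ _ (fun i => by rw [h5]; norm_num)] at h4
    simp only [h5, one_pow, Finset.prod_const_one, mul_one] at h4
    have h6 : pt A k (fun i => 2 ^ k i * x i - A i) (fun i => 1 - (2 ^ k i * x i - A i)) = x := by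
      funext i
      unfold pt
      have : (2 : ℝ) ^ k i ≠ 0 := by positivity
      have h7 : (1 - (2 ^ k i * x i - A i) + (2 ^ k i * x i - A i) : ℝ) = 1 := by ring
      rw [h7, mul_one, div_eq_iff this]
      ring
    rw [h6] at h4
    push_cast at h4
    have h8 : (0 : ℝ) < 2 ^ K := by positivity
    have h9 := le_of_mul_le_mul_right h4 h8
    rw [hc, lin_acc] at h9
    push_cast at h9
    linarith

theorem run_sound {W sd lb : ℕ} {d : ℕ → ℕ} {its : List (((ℕ → ℝ) → ℝ) × ℕ × ℕ)} {V tab : List (List ℕ)}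
    (hW : 0 < W) (hsd : sd = sdeg n d) (hlb : ∀ a ∈ its, a.2.2 * 2 ^ sdeg n d < 2 ^ lb)
    (hV : ∀ i < n, ∃ q, nth (nthl V i) 0 = W * st d i ∧ nth (nthl V i) 1 = d i ∧ st d n = st d (i + 1) * q ∧
      (nthl V i).tail.tail = msk (W * st d i) (W * st d (i + 1)) q (d i + 1) [])
    (fuel : ℕ) (A k : ℕ → ℕ) (K : ℕ) (Ns : List ℕ) (q r : ℕ) (h : InvL n W d A k K its Ns)
    (hr : run W n sd lb (kap W d (EP n d)) (2 ^ (W - 1) * geo W (st d n)) (its.map (·.2.1)) (its.map (·.2.2)) V tab
      fuel Ns K q = r + 1) (x : ℕ → ℝ) (hx : Box n A k x) :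
    ∃ (i δ : ℕ) (ls : List ℕ), nthl tab i = δ :: ls ∧ (δ : ℝ) ≤ comb ls (its.map (·.1)) x := by
  induction fuel generalizing A k K Ns q r with
  | zero => exact absurd hr (by simp [run])
  | succ fuel ih =>
    set R := run W n sd lb (kap W d (EP n d)) (2 ^ (W - 1) * geo W (st d n)) (its.map (·.2.1)) (its.map (·.2.2)) V tab
      fuel with hR
    have hrun : run W n sd lb (kap W d (EP n d)) (2 ^ (W - 1) * geo W (st d n)) (its.map (·.2.1)) (its.map (·.2.2)) V tab
      (fuel + 1) Ns K q = frc (Nat.mod q 256) (fun op => frc (Nat.div q 256) (fun q' =>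
      cond (Nat.ble (Nat.succ op) n)
        (frc (Nat.add K (nth (nthl V op) 1)) (fun K' => cond (Nat.ble (Nat.add K' lb) W)
          (spl (nth (nthl V op) 0) (nthl V op).tail.tail Ns (fun L Q =>
            frc (R L K' q') (fun r => cond (Nat.beq r 0) 0 (R Q K' (Nat.sub r 1))))) 0))
        (cond (leaf W sd (kap W d (EP n d)) (2 ^ (W - 1) * geo W (st d n)) (its.map (·.2.1)) (its.map (·.2.2))
          (nthl tab (Nat.sub op n)) Ns K) (Nat.succ q') 0))) := rfl
    rw [hrun] at hr
    simp only [frc_eq, spl_eq] at hr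
    set op := Nat.mod q 256 with hop
    set q' := Nat.div q 256 with hq'
    by_cases hn : op < n
    · have h1 : Nat.ble (Nat.succ op) n = true := Nat.ble_eq_true_of_le hn
      rw [h1, cond_true] at hr
      obtain ⟨m, hm0, hm1, hm2, hm3⟩ := hV op hn
      rw [hm0, hm1, hm3] at hr
      have h2 : Nat.ble (Nat.add (Nat.add K (d op)) lb) W = true := by
        by_contra h0
        rw [Bool.not_eq_true] at h0
        rw [h0] at hr
        exact absurd hr (by simp)
      rw [h2, cond_true] at hr
      have h2' : K + d op + lb ≤ W := Nat.le_of_ble_eq_true h2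
      have hBW : ∀ a ∈ its, a.2.2 * 2 ^ K * 2 ^ sdeg n d < 2 ^ W := by
        intro a ha
        calc a.2.2 * 2 ^ K * 2 ^ sdeg n d = (a.2.2 * 2 ^ sdeg n d) * 2 ^ K := by ring
          _ < 2 ^ lb * 2 ^ K := Nat.mul_lt_mul_of_pos_right (hlb a ha) (by positivity)
          _ = 2 ^ (lb + K) := by rw [pow_add]
          _ ≤ 2 ^ W := Nat.pow_le_pow_right (by norm_num) (by omega)
      have hL : InvL n W d (Function.update A op (2 * A op)) (Function.update k op (k op + 1)) (K + d op) its
          (Ns.map (fun N => lft (W * st d op) N (msk (W * st d op) (W * st d (op + 1)) m (d op + 1) []) 0)) := by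
        rw [InvL, List.forall₂_map_right_iff]
        apply forall₂_imp_mem h
        intro a ha N hI
        exact hI.left hW (hBW a ha) ⟨op, hn⟩ m hm2
      have hRR : InvL n W d (Function.update A op (2 * A op + 1)) (Function.update k op (k op + 1)) (K + d op) its
          (Ns.map (fun N => rgt (W * st d op) N (msk (W * st d op) (W * st d (op + 1)) m (d op + 1) []) 0)) := by
        rw [InvL, List.forall₂_map_right_iff]
        apply forall₂_imp_mem h
        intro a ha N hI
        exact hI.right hW (hBW a ha) ⟨op, hn⟩ m hm2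
      set r1 := R (Ns.map (fun N => lft (W * st d op) N (msk (W * st d op) (W * st d (op + 1)) m (d op + 1) []) 0))
        (Nat.add K (d op)) q' with hr1
      have h3 : r1 ≠ 0 := by
        intro h0
        rw [h0] at hr
        exact absurd hr (by simp)
      obtain ⟨r1', hr1'⟩ := Nat.exists_eq_succ_of_ne_zero h3
      have h4 : Nat.beq r1 0 = false := by
        rw [hr1']; rfl
      rw [h4, cond_false] at hr
      rcases le_total (2 ^ (k op + 1) * x op) (2 * A op + 1) with hx1 | hx1
      · apply ih _ _ _ _ q' r1' hL hr1'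
        intro i hi
        by_cases hio : i = op
        · rw [hio]
          simp only [Function.update_self]
          have := (hx op hn).1
          rw [pow_succ] at hx1 ⊢
          push_cast
          constructor <;> linarith
        · simp only [Function.update_of_ne hio]
          exact hx i hi
      · apply ih _ _ _ _ _ r hRR hr
        intro i hi
        by_cases hio : i = op
        · rw [hio]
          simp only [Function.update_self]
          have := (hx op hn).2
          rw [pow_succ] at hx1 ⊢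
          push_cast
          constructor <;> linarith
        · simp only [Function.update_of_ne hio]
          exact hx i hi
    · have h1 : Nat.ble (Nat.succ op) n = false := by
        by_contra h0
        rw [Bool.not_eq_false] at h0
        exact hn (Nat.le_of_ble_eq_true h0)
      rw [h1, cond_false] at hr
      have h2 : leaf W sd (kap W d (EP n d)) (2 ^ (W - 1) * geo W (st d n)) (its.map (·.2.1)) (its.map (·.2.2))
          (nthl tab (Nat.sub op n)) Ns K = true := by
        by_contra h0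
        rw [Bool.not_eq_true] at h0
        rw [h0] at hr
        exact absurd hr (by simp)
      obtain ⟨δ, ls, h3, h4⟩ := leaf_sound hW h hsd h2 x hx
      exact ⟨_, δ, ls, h3, h4⟩

end Pool.Agent.PB
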