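import Pool.Agent.PB.Lst

set_option autoImplicit false

open MvPolynomial

namespace Pool.Agent.PB

variable {n : ℕ}

/-- positive and negative part of an expression -/
noncomputable def pm {R : Type} [CommSemiring R] (X U : ℕ → R) : Ax → R × R
  | .c p m => (p, m)
  | .x i a => (X i * (pm X U a).1, X i * (pm X U a).2)
  | .u i a => (U i * (pm X U a).1, U i * (pm X U a).2)
  | .add a b => ((pm X U a).1 + (pm X U b).1, (pm X U a).2 + (pm X U b).2)
  | .neg a => ((pm X U a).2, (pm X U a).1)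
  | .mul a b => ((pm X U a).1 * (pm X U b).1 + (pm X U a).2 * (pm X U b).2,
      (pm X U a).1 * (pm X U b).2 + (pm X U a).2 * (pm X U b).1)

theorem pm_map {R S : Type} [CommSemiring R] [CommSemiring S] (φ : R →+* S) (X U : ℕ → R) (e : Ax) :
    pm (fun i => φ (X i)) (fun i => φ (U i)) e = (φ (pm X U e).1, φ (pm X U e).2) := by
  induction e with
  | c p m => simp [pm]
  | x i a ih => simp [pm, ih]
  | u i a ih => simp [pm, ih]
  | add a b iha ihb => simp [pm, iha, ihb]
  | neg a ih => simp [pm, ih]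
  | mul a b iha ihb => simp [pm, iha, ihb]

theorem kv_eq {α : Type} (A K H : List ℕ) (e : Ax) (k : ℕ → ℕ → α) :
    kv A K H e k = k (pm (fun i => nth A i + (nth A i + 1) * 2 ^ nth H i) (fun i => 2 ^ nth K i * (1 + 2 ^ nth H i)) e).1
      (pm (fun i => nth A i + (nth A i + 1) * 2 ^ nth H i) (fun i => 2 ^ nth K i * (1 + 2 ^ nth H i)) e).2 := by
  induction e generalizing k with
  | c p m => rfl
  | x i a ih =>
    have : kv A K H (.x i a) k = kv A K H a (fun p m => frc (nth A i) (fun a => frc (nth H i) (fun h =>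
      k (p * a + (p * (a + 1)) <<< h) (m * a + (m * (a + 1)) <<< h)))) := rfl
    rw [this, ih]
    simp only [frc_eq, pm, Nat.shiftLeft_eq]
    congr 1 <;> ring
  | u i a ih =>
    have : kv A K H (.u i a) k = kv A K H a (fun p m => frc (nth K i) (fun b => frc (nth H i) (fun h =>
      k ((p + p <<< h) <<< b) ((m + m <<< h) <<< b)))) := rfl
    rw [this, ih]
    simp only [frc_eq, pm, Nat.shiftLeft_eq]
    congr 1 <;> ring
  | add a b iha ihb =>
    have : kv A K H (.add a b) k = kv A K H a (fun p m => kv A K H b (fun q l => k (p + q) (m + l))) := rfl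
    rw [this, iha, ihb]
    rfl
  | neg a ih =>
    have : kv A K H (.neg a) k = kv A K H a (fun p m => k m p) := rfl
    rw [this, ih]
    rfl
  | mul a b iha ihb =>
    have : kv A K H (.mul a b) k = kv A K H a (fun p m => kv A K H b (fun q l => k (p * q + m * l) (p * l + m * q))) := rfl
    rw [this, iha, ihb]
    rfl

/-- positive and negative part at 1 -/
noncomputable def p1 (e : Ax) : ℕ × ℕ := pm (fun _ => (1 : ℕ)) (fun _ => 1) e

theorem one_eq {α : Type} (e : Ax) (k : ℕ → ℕ → α) : one e k = k (p1 e).1 (p1 e).2 := by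
  induction e generalizing k with
  | c p m => rfl
  | x i a ih =>
    have : one (.x i a) k = one a k := rfl
    rw [this, ih]
    simp [p1, pm]
  | u i a ih =>
    have : one (.u i a) k = one a k := rfl
    rw [this, ih]
    simp [p1, pm]
  | add a b iha ihb =>
    have : one (.add a b) k = one a (fun p m => one b (fun q l => frc (p + q) (fun P => frc (m + l) (fun M => k P M)))) := rfl
    rw [this, iha, ihb]
    simp only [frc_eq]
    rfl
  | neg a ih =>
    have : one (.neg a) k = one a (fun p m => k m p) := rfl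
    rw [this, ih]
    rfl
  | mul a b iha ihb =>
    have : one (.mul a b) k = one a (fun p m => one b (fun q l => frc (p * q + m * l) (fun P => frc (p * l + m * q)
      (fun M => k P M)))) := rfl
    rw [this, iha, ihb]
    simp only [frc_eq]
    rfl

/-! ### direct evaluation -/

namespace Dv

/-- value -/
def Sg.v : Sg → ℤ
  | .p x => (x : ℤ)
  | .n x => -(x : ℤ)

theorem zc_eq (p m : ℕ) : (zc p m).v = (p : ℤ) - m := by
  cases h : Nat.ble m p with
  | true =>
    have h1 := Nat.le_of_ble_eq_true h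
    have h2 : zc p m = .p (p - m) := by
      unfold zc
      rw [h]
      rfl
    rw [h2]
    show ((p - m : ℕ) : ℤ) = _
    push_cast [h1]
    ring
  | false =>
    have h1 : ¬ m ≤ p := fun h0 => by
      rw [Nat.ble_eq_true_of_le h0] at h
      cases h
    have h2 : zc p m = .n (m - p) := by
      unfold zc
      rw [h]
      rfl
    rw [h2]
    show -((m - p : ℕ) : ℤ) = _
    omega

theorem zadd_eq (a b : Sg) : (zadd a b).v = a.v + b.v := by
  cases a with
  | p x =>
    cases b with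
    | p y => exact Int.natCast_add x y
    | n y => exact (zc_eq x y).trans (sub_eq_add_neg _ _)
  | n x =>
    cases b with
    | p y =>
      refine (zc_eq y x).trans ?_
      show (y : ℤ) - x = -(x : ℤ) + y
      ring
    | n y =>
      show -((x + y : ℕ) : ℤ) = -(x : ℤ) + -(y : ℤ)
      push_cast
      ring

theorem zmul_eq (a b : Sg) : (zmul a b).v = a.v * b.v := by
  cases a with
  | p x =>
    cases b with
    | p y => exact Int.natCast_mul x y
    | n y =>
      show -((x * y : ℕ) : ℤ) = (x : ℤ) * -(y : ℤ)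
      push_cast
      ring
  | n x =>
    cases b with
    | p y =>
      show -((x * y : ℕ) : ℤ) = -(x : ℤ) * (y : ℤ)
      push_cast
      ring
    | n y =>
      show ((x * y : ℕ) : ℤ) = -(x : ℤ) * -(y : ℤ)
      push_cast
      ring

theorem zneg_eq (a : Sg) : (zneg a).v = -a.v := by
  cases a with
  | p x => rfl
  | n x => exact (neg_neg _).symm

theorem zmp_eq (f : ℕ → ℕ) (c : ℕ) (hf : ∀ p, f p = p * c) (a : Sg) : (zmp f a).v = a.v * c := by
  cases a with
  | p x =>
    show ((f x : ℕ) : ℤ) = (x : ℤ) * c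
    rw [hf]
    push_cast
    rfl
  | n x =>
    show -((f x : ℕ) : ℤ) = -(x : ℤ) * c
    rw [hf]
    push_cast
    ring

theorem fx_eq (a h p : ℕ) : fx a h p = p * (a + (a + 1) * 2 ^ h) := by
  cases a with
  | zero =>
    show p <<< h = _
    rw [Nat.shiftLeft_eq]
    ring
  | succ a =>
    show p * (a + 1) + (p * (a + 1 + 1)) <<< h = _
    rw [Nat.shiftLeft_eq]
    ring

theorem fu_eq (b h p : ℕ) : fu b h p = p * (2 ^ b * (1 + 2 ^ h)) := by
  cases b with
  | zero =>
    show p + p <<< h = _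
    rw [Nat.shiftLeft_eq]
    ring
  | succ b =>
    show (p + p <<< h) <<< (b + 1) = _
    rw [Nat.shiftLeft_eq, Nat.shiftLeft_eq]
    ring

theorem dz_eq (A K H : List ℕ) (e : Ax) :
    (dz A K H e).v = ((pm (fun i => nth A i + (nth A i + 1) * 2 ^ nth H i) (fun i => 2 ^ nth K i * (1 + 2 ^ nth H i)) e).1 : ℤ) -
      (pm (fun i => nth A i + (nth A i + 1) * 2 ^ nth H i) (fun i => 2 ^ nth K i * (1 + 2 ^ nth H i)) e).2 := by
  induction e with
  | c p m => exact zc_eq p m
  | x i a ih =>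
    show (zmp (fx (nth A i) (nth H i)) (dz A K H a)).v = _
    rw [zmp_eq _ (nth A i + (nth A i + 1) * 2 ^ nth H i) (fun p => fx_eq _ _ p), ih]
    simp only [pm]
    push_cast
    ring
  | u i a ih =>
    show (zmp (fu (nth K i) (nth H i)) (dz A K H a)).v = _
    rw [zmp_eq _ (2 ^ nth K i * (1 + 2 ^ nth H i)) (fun p => fu_eq _ _ p), ih]
    simp only [pm]
    push_cast
    ring
  | add a b iha ihb =>
    show (zadd (dz A K H a) (dz A K H b)).v = _
    rw [zadd_eq, iha, ihb]
    simp only [pm]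
    push_cast
    ring
  | neg a ih =>
    show (zneg (dz A K H a)).v = _
    rw [zneg_eq, ih]
    simp only [pm]
    ring
  | mul a b iha ihb =>
    show (zmul (dz A K H a) (dz A K H b)).v = _
    rw [zmul_eq, iha, ihb]
    simp only [pm]
    push_cast
    ring

theorem zq_eq (X p m : ℕ) (z : Sg) (hz : z.v = (p : ℤ) - m) : zq X z = p + X - m := by
  cases z with
  | p x =>
    have h1 : (x : ℤ) = p - m := hz
    show x + X = _
    omega
  | n x =>
    have h1 : -(x : ℤ) = p - m := hz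
    show X - x = _
    omega

theorem dn_eq (e : Ax) : dn e = p1 e := by
  induction e with
  | c p m => rfl
  | x i a ih =>
    show dn a = _
    rw [ih]
    simp [p1, pm]
  | u i a ih =>
    show dn a = _
    rw [ih]
    simp [p1, pm]
  | add a b iha ihb =>
    show ((dn a).1 + (dn b).1, (dn a).2 + (dn b).2) = _
    rw [iha, ihb]
    rfl
  | neg a ih =>
    show ((dn a).2, (dn a).1) = _
    rw [ih]
    rfl
  | mul a b iha ihb =>
    show ((dn a).1 * (dn b).1 + (dn a).2 * (dn b).2, (dn a).1 * (dn b).2 + (dn a).2 * (dn b).1) = _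
    rw [iha, ihb]
    rfl

end Dv

/-- homogeneous of degree D -/
inductive Hm (n : ℕ) : Ax → (ℕ → ℕ) → Prop
  | c (p m : ℕ) : Hm n (.c p m) (fun _ => 0)
  | x (i : ℕ) (a : Ax) (D : ℕ → ℕ) : i < n → Hm n a D → Hm n (.x i a) (fun j => D j + if j = i then 1 else 0)
  | u (i : ℕ) (a : Ax) (D : ℕ → ℕ) : i < n → Hm n a D → Hm n (.u i a) (fun j => D j + if j = i then 1 else 0)
  | add (a b : Ax) (D : ℕ → ℕ) : Hm n a D → Hm n b D → Hm n (.add a b) D
  | neg (a : Ax) (D : ℕ → ℕ) : Hm n a D → Hm n (.neg a) D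
  | mul (a b : Ax) (D D' : ℕ → ℕ) : Hm n a D → Hm n b D' → Hm n (.mul a b) (fun j => D j + D' j)

theorem Hm.congr {e : Ax} {D : ℕ → ℕ} (h : Hm n e D) {R : Type} [CommSemiring R] {X X' U U' : ℕ → R}
    (hX : ∀ i < n, X i = X' i) (hU : ∀ i < n, U i = U' i) : pm X U e = pm X' U' e := by
  induction h with
  | c p m => rfl
  | x i a D hi _ ih => simp [pm, ih, hX i hi]
  | u i a D hi _ ih => simp [pm, ih, hU i hi]
  | add a b D _ _ iha ihb => simp [pm, iha, ihb]
  | neg a D _ ih => simp [pm, ih]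
  | mul a b D D' _ _ iha ihb => simp [pm, iha, ihb]

theorem prod_D {R : Type} [CommSemiring R] (U : ℕ → R) (D : ℕ → ℕ) (i : ℕ) (hi : i < n) :
    ∏ j : Fin n, U j ^ (D j + if (j : ℕ) = i then 1 else 0) = U i * ∏ j : Fin n, U j ^ D j := by
  have h1 : ∀ j : Fin n, U j ^ (D j + if (j : ℕ) = i then 1 else 0) = (if j = ⟨i, hi⟩ then U i else 1) * U j ^ D j := by
    intro j
    by_cases h : j = ⟨i, hi⟩
    · subst h
      simp [pow_succ, mul_comm]
    · have h' : (j : ℕ) ≠ i := fun h0 => h (Fin.ext h0)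
      simp [h, h']
  rw [Finset.prod_congr rfl (fun j _ => h1 j), Finset.prod_mul_distrib, Finset.prod_ite_eq']
  simp

theorem Hm.val {e : Ax} {D : ℕ → ℕ} (h : Hm n e D) (X U : ℕ → ℝ) (hU : ∀ i < n, U i ≠ 0) :
    (pm X U e).1 - (pm X U e).2 = e.val (fun i => X i / U i) * ∏ j : Fin n, U j ^ D j := by
  induction h with
  | c p m => simp [pm, Ax.val]
  | x i a D hi _ ih =>
    rw [prod_D U D i hi]
    simp only [pm, Ax.val]
    rw [← mul_sub, ih]
    have := hU i hi
    field_simp
  | u i a D hi _ ih =>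
    rw [prod_D U D i hi]
    simp only [pm, Ax.val]
    rw [← mul_sub, ih]
    ring
  | add a b D _ _ iha ihb =>
    simp only [pm, Ax.val]
    linarith
  | neg a D _ ih =>
    simp only [pm, Ax.val]
    linarith
  | mul a b D D' _ _ iha ihb =>
    simp only [pm, Ax.val, pow_add, Finset.prod_mul_distrib]
    calc _ = ((pm X U a).1 - (pm X U a).2) * ((pm X U b).1 - (pm X U b).2) := by ring
      _ = _ := by rw [iha, ihb]; ring

theorem Hm.dom {e : Ax} {D : ℕ → ℕ} (h : Hm n e D) {R : Type} [CommSemiring R] (X U Y : ℕ → R)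
    (hY : ∀ i < n, X i + Y i = U i) :
    (∃ Q, (pm X U e).1 + Q = (p1 e).1 • ∏ j : Fin n, U j ^ D j) ∧
      (∃ Q, (pm X U e).2 + Q = (p1 e).2 • ∏ j : Fin n, U j ^ D j) := by
  induction h with
  | c p m => exact ⟨⟨0, by simp [pm, p1]⟩, ⟨0, by simp [pm, p1]⟩⟩
  | x i a D hi _ ih =>
    obtain ⟨⟨Q1, h1⟩, ⟨Q2, h2⟩⟩ := ih
    have e1 : p1 (.x i a) = p1 a := by simp [p1, pm]
    rw [prod_D U D i hi, e1]
    simp only [pm]
    refine ⟨⟨Y i * (pm X U a).1 + U i * Q1, ?_⟩, ⟨Y i * (pm X U a).2 + U i * Q2, ?_⟩⟩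
    · calc _ = (X i + Y i) * (pm X U a).1 + U i * Q1 := by ring
        _ = U i * ((pm X U a).1 + Q1) := by rw [hY i hi]; ring
        _ = _ := by rw [h1, mul_smul_comm]
    · calc _ = (X i + Y i) * (pm X U a).2 + U i * Q2 := by ring
        _ = U i * ((pm X U a).2 + Q2) := by rw [hY i hi]; ring
        _ = _ := by rw [h2, mul_smul_comm]
  | u i a D hi _ ih =>
    obtain ⟨⟨Q1, h1⟩, ⟨Q2, h2⟩⟩ := ih
    have e1 : p1 (.u i a) = p1 a := by simp [p1, pm]
    rw [prod_D U D i hi, e1]
    simp only [pm]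
    refine ⟨⟨U i * Q1, ?_⟩, ⟨U i * Q2, ?_⟩⟩
    · rw [← mul_add, h1, mul_smul_comm]
    · rw [← mul_add, h2, mul_smul_comm]
  | add a b D _ _ iha ihb =>
    obtain ⟨⟨Q1, h1⟩, ⟨Q2, h2⟩⟩ := iha
    obtain ⟨⟨Q3, h3⟩, ⟨Q4, h4⟩⟩ := ihb
    have e1 : (p1 (.add a b)).1 = (p1 a).1 + (p1 b).1 := rfl
    have e2 : (p1 (.add a b)).2 = (p1 a).2 + (p1 b).2 := rfl
    rw [e1, e2]
    simp only [pm]
    refine ⟨⟨Q1 + Q3, ?_⟩, ⟨Q2 + Q4, ?_⟩⟩
    · calc _ = ((pm X U a).1 + Q1) + ((pm X U b).1 + Q3) := by ring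
        _ = _ := by rw [h1, h3, add_smul]
    · calc _ = ((pm X U a).2 + Q2) + ((pm X U b).2 + Q4) := by ring
        _ = _ := by rw [h2, h4, add_smul]
  | neg a D _ ih => exact ⟨ih.2, ih.1⟩
  | mul a b D D' _ _ iha ihb =>
    obtain ⟨⟨Q1, h1⟩, ⟨Q2, h2⟩⟩ := iha
    obtain ⟨⟨Q3, h3⟩, ⟨Q4, h4⟩⟩ := ihb
    have e1 : (p1 (.mul a b)).1 = (p1 a).1 * (p1 b).1 + (p1 a).2 * (p1 b).2 := rfl
    have e2 : (p1 (.mul a b)).2 = (p1 a).1 * (p1 b).2 + (p1 a).2 * (p1 b).1 := rfl
    rw [e1, e2]
    simp only [pm, pow_add, Finset.prod_mul_distrib]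
    set PD := ∏ j : Fin n, U j ^ D j
    set PD' := ∏ j : Fin n, U j ^ D' j
    refine ⟨⟨(pm X U a).1 * Q3 + Q1 * ((pm X U b).1 + Q3) + ((pm X U a).2 * Q4 + Q2 * ((pm X U b).2 + Q4)), ?_⟩,
      ⟨(pm X U a).1 * Q4 + Q1 * ((pm X U b).2 + Q4) + ((pm X U a).2 * Q3 + Q2 * ((pm X U b).1 + Q3)), ?_⟩⟩
    · calc _ = ((pm X U a).1 + Q1) * ((pm X U b).1 + Q3) + ((pm X U a).2 + Q2) * ((pm X U b).2 + Q4) := by ring
        _ = _ := by
          rw [h1, h2, h3, h4]
          simp only [nsmul_eq_mul]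
          push_cast
          ring
    · calc _ = ((pm X U a).1 + Q1) * ((pm X U b).2 + Q4) + ((pm X U a).2 + Q2) * ((pm X U b).1 + Q3) := by ring
        _ = _ := by
          rw [h1, h2, h3, h4]
          simp only [nsmul_eq_mul]
          push_cast
          ring

theorem leq_eq {l r : List ℕ} (h : leq l r = true) : l = r := by
  induction l generalizing r with
  | nil =>
    cases r with
    | nil => rfl
    | cons y s => exact absurd h (by simp [leq])
  | cons x l ih =>
    cases r with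
    | nil => exact absurd h (by simp [leq])
    | cons y s =>
      have h1 : leq (x :: l) (y :: s) = cond (Nat.beq x y) (leq l s) false := rfl
      rw [h1] at h
      by_cases hxy : Nat.beq x y = true
      · rw [hxy, cond_true] at h
        rw [Nat.eq_of_beq_eq_true hxy, ih h]
      · rw [Bool.not_eq_true] at hxy
        rw [hxy] at h
        exact absurd h (by simp)

theorem inc_spec (l : List ℕ) (i : ℕ) (hi : i < l.length) :
    (inc l i).length = l.length ∧ ∀ j, nth (inc l i) j = nth l j + if j = i then 1 else 0 := by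
  induction l generalizing i with
  | nil => simp at hi
  | cons x l ih =>
    cases i with
    | zero =>
      have : inc (x :: l) 0 = (x + 1) :: l := rfl
      rw [this]
      refine ⟨rfl, fun j => ?_⟩
      cases j with
      | zero => rw [nth_zero, nth_zero]; simp
      | succ j => rw [nth_succ, nth_succ]; simp
    | succ i =>
      have : inc (x :: l) (i + 1) = x :: inc l i := rfl
      rw [this]
      obtain ⟨h1, h2⟩ := ih i (by simpa using hi)
      refine ⟨by simp [h1], fun j => ?_⟩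
      cases j with
      | zero => rw [nth_zero, nth_zero]; simp
      | succ j => rw [nth_succ, nth_succ, h2]; simp

theorem ladd_spec (l r : List ℕ) (h : l.length = r.length) :
    (ladd l r).length = l.length ∧ ∀ j, nth (ladd l r) j = nth l j + nth r j := by
  induction l generalizing r with
  | nil =>
    cases r with
    | nil => exact ⟨rfl, fun j => rfl⟩
    | cons y s => simp at h
  | cons x l ih =>
    cases r with
    | nil => simp at h
    | cons y s =>
      have : ladd (x :: l) (y :: s) = (x + y) :: ladd l s := rfl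
      rw [this]
      obtain ⟨h1, h2⟩ := ih s (by simpa using h)
      refine ⟨by simp [h1], fun j => ?_⟩
      cases j with
      | zero => rfl
      | succ j => rw [nth_succ, nth_succ, nth_succ, h2]

theorem hd_sound (zs : List ℕ) (hz : ∀ i, nth zs i = 0) (e : Ax) (k : List ℕ → Bool) (h : hd zs e k = true) :
    ∃ l : List ℕ, l.length = zs.length ∧ k l = true ∧ Hm zs.length e (nth l) := by
  induction e generalizing k with
  | c p m =>
    refine ⟨zs, rfl, h, ?_⟩
    have : nth zs = fun _ => 0 := funext hz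
    rw [this]
    exact Hm.c p m
  | x i a ih =>
    have h1 : hd zs (.x i a) k = cond (Nat.ble (Nat.succ i) zs.length) (hd zs a (fun l => lfrc (inc l i) k)) false := rfl
    rw [h1] at h
    by_cases hi : Nat.ble (Nat.succ i) zs.length = true
    · rw [hi, cond_true] at h
      obtain ⟨l, h2, h3, h4⟩ := ih _ h
      rw [lfrc_eq] at h3
      have hi' : i < zs.length := Nat.le_of_ble_eq_true hi
      obtain ⟨h5, h6⟩ := inc_spec l i (by omega)
      refine ⟨inc l i, by omega, h3, ?_⟩
      have : nth (inc l i) = fun j => nth l j + if j = i then 1 else 0 := funext h6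
      rw [this]
      exact Hm.x i a _ hi' h4
    · rw [Bool.not_eq_true] at hi
      rw [hi] at h
      exact absurd h (by simp)
  | u i a ih =>
    have h1 : hd zs (.u i a) k = cond (Nat.ble (Nat.succ i) zs.length) (hd zs a (fun l => lfrc (inc l i) k)) false := rfl
    rw [h1] at h
    by_cases hi : Nat.ble (Nat.succ i) zs.length = true
    · rw [hi, cond_true] at h
      obtain ⟨l, h2, h3, h4⟩ := ih _ h
      rw [lfrc_eq] at h3
      have hi' : i < zs.length := Nat.le_of_ble_eq_true hi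
      obtain ⟨h5, h6⟩ := inc_spec l i (by omega)
      refine ⟨inc l i, by omega, h3, ?_⟩
      have : nth (inc l i) = fun j => nth l j + if j = i then 1 else 0 := funext h6
      rw [this]
      exact Hm.u i a _ hi' h4
    · rw [Bool.not_eq_true] at hi
      rw [hi] at h
      exact absurd h (by simp)
  | add a b iha ihb =>
    have h1 : hd zs (.add a b) k = hd zs a (fun l => hd zs b (fun r => cond (leq l r) (k l) false)) := rfl
    rw [h1] at h
    obtain ⟨l, h2, h3, h4⟩ := iha _ h
    obtain ⟨r, h5, h6, h7⟩ := ihb _ h3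
    by_cases hlr : leq l r = true
    · rw [hlr, cond_true] at h6
      refine ⟨l, h2, h6, Hm.add a b _ h4 ?_⟩
      rw [leq_eq hlr]
      exact h7
    · rw [Bool.not_eq_true] at hlr
      rw [hlr] at h6
      exact absurd h6 (by simp)
  | neg a ih =>
    obtain ⟨l, h2, h3, h4⟩ := ih k h
    exact ⟨l, h2, h3, Hm.neg a _ h4⟩
  | mul a b iha ihb =>
    have h1 : hd zs (.mul a b) k = hd zs a (fun l => hd zs b (fun r => lfrc (ladd l r) k)) := rfl
    rw [h1] at h
    obtain ⟨l, h2, h3, h4⟩ := iha _ h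
    obtain ⟨r, h5, h6, h7⟩ := ihb _ h3
    rw [lfrc_eq] at h6
    obtain ⟨h8, h9⟩ := ladd_spec l r (by omega)
    refine ⟨ladd l r, by omega, h6, ?_⟩
    have : nth (ladd l r) = fun j => nth l j + nth r j := funext h9
    rw [this]
    exact Hm.mul a b _ _ h4 h7

namespace Dv

theorem gw_eq (n i : ℕ) : gw n i = 2 ^ (16 * i) + 2 ^ (16 * n) := rfl

theorem gB_eq (n : ℕ) : gB n = 2 ^ 16 * 2 ^ (16 * n) := by
  have h1 : gB n = 2 ^ (16 * (n + 1)) := rfl
  have h2 : 16 * (n + 1) = 16 + 16 * n := by ring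
  rw [h1, h2, pow_add]

theorem pk_le_of {D : ℕ → ℕ} {n : ℕ} (h : ∑ i ∈ Finset.range n, D i * gw n i < gB n) : ∀ i < n, D i < 2 ^ 16 := by
  intro i hi
  have h1 : D i * gw n i ≤ ∑ i ∈ Finset.range n, D i * gw n i :=
    Finset.single_le_sum (f := fun i => D i * gw n i) (fun _ _ => Nat.zero_le _) (Finset.mem_range.2 hi)
  have h2 : D i * 2 ^ (16 * n) ≤ D i * gw n i := by
    rw [gw_eq]
    exact Nat.mul_le_mul_left _ (Nat.le_add_left _ _)
  have h3 : gB n = 2 ^ 16 * 2 ^ (16 * n) := gB_eq n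
  have h4 : D i * 2 ^ (16 * n) < 2 ^ 16 * 2 ^ (16 * n) := by omega
  exact Nat.lt_of_mul_lt_mul_right h4

theorem sum_eq (D : ℕ → ℕ) (n : ℕ) :
    ∑ i ∈ Finset.range n, D i * gw n i = pk 16 D n + (∑ i ∈ Finset.range n, D i) * 2 ^ (16 * n) := by
  unfold pk
  rw [Finset.sum_mul, ← Finset.sum_add_distrib]
  refine Finset.sum_congr rfl fun i _ => ?_
  rw [gw_eq]
  ring

theorem pk_uni {D D' : ℕ → ℕ} {n : ℕ} (h : ∑ i ∈ Finset.range n, D i * gw n i < gB n)
    (h' : ∑ i ∈ Finset.range n, D i * gw n i = ∑ i ∈ Finset.range n, D' i * gw n i)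
    (h0 : ∀ i, n ≤ i → D i = 0) (h0' : ∀ i, n ≤ i → D' i = 0) : D = D' := by
  have h1 := pk_le_of h
  have h2 := pk_le_of (h' ▸ h)
  have h3 : pk 16 D n < 2 ^ (16 * n) := pk_lt h1
  have h4 : pk 16 D' n < 2 ^ (16 * n) := pk_lt h2
  rw [sum_eq, sum_eq] at h'
  have h5 : pk 16 D n = pk 16 D' n := by
    have h6 := congrArg (· % 2 ^ (16 * n)) h'
    simp only [Nat.add_mul_mod_self_right] at h6
    rwa [Nat.mod_eq_of_lt h3, Nat.mod_eq_of_lt h4] at h6
  funext i
  by_cases hi : i < n
  · exact pk_inj (by norm_num) h1 h2 h5 i hi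
  · rw [h0 i (by omega), h0' i (by omega)]

theorem gd_sound (n : ℕ) (e : Ax) (h : gd n e < gB n) :
    ∃ D : ℕ → ℕ, Hm n e D ∧ (∀ i, n ≤ i → D i = 0) ∧ gd n e = ∑ i ∈ Finset.range n, D i * gw n i := by
  have one : ∀ (D : ℕ → ℕ) (i : ℕ), i < n → ∑ j ∈ Finset.range n, (D j + if j = i then 1 else 0) * gw n j =
      ∑ j ∈ Finset.range n, D j * gw n j + gw n i := by
    intro D i hi
    have h1 : ∀ j ∈ Finset.range n, (D j + if j = i then 1 else 0) * gw n j = D j * gw n j + if j = i then gw n j else 0 := by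
      intro j _
      split_ifs <;> ring
    rw [Finset.sum_congr rfl h1, Finset.sum_add_distrib, Finset.sum_ite_eq' (Finset.range n) i (fun j => gw n j),
      if_pos (Finset.mem_range.2 hi)]
  induction e with
  | c p m => exact ⟨fun _ => 0, Hm.c p m, fun _ _ => rfl, by
      show 0 = _
      simp⟩
  | x i a ih =>
    have h1 : gd n (.x i a) = Bool.rec (gB n) (Nat.add (gd n a) (gw n i)) (Nat.ble (Nat.succ i) n) := rfl
    cases hi : Nat.ble (Nat.succ i) n with
    | false =>
      rw [h1, hi] at h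
      exact absurd h (lt_irrefl _)
    | true =>
      rw [hi] at h1
      have h2 : gd n (.x i a) = gd n a + gw n i := h1
      obtain ⟨D, h3, h4, h5⟩ := ih (by omega)
      have hi' : i < n := Nat.le_of_ble_eq_true hi
      refine ⟨_, Hm.x i a D hi' h3, fun j hj => ?_, ?_⟩
      · rw [h4 j hj, if_neg (by omega)]
      · rw [one D i hi', h2, h5]
  | u i a ih =>
    have h1 : gd n (.u i a) = Bool.rec (gB n) (Nat.add (gd n a) (gw n i)) (Nat.ble (Nat.succ i) n) := rfl
    cases hi : Nat.ble (Nat.succ i) n with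
    | false =>
      rw [h1, hi] at h
      exact absurd h (lt_irrefl _)
    | true =>
      rw [hi] at h1
      have h2 : gd n (.u i a) = gd n a + gw n i := h1
      obtain ⟨D, h3, h4, h5⟩ := ih (by omega)
      have hi' : i < n := Nat.le_of_ble_eq_true hi
      refine ⟨_, Hm.u i a D hi' h3, fun j hj => ?_, ?_⟩
      · rw [h4 j hj, if_neg (by omega)]
      · rw [one D i hi', h2, h5]
  | add a b iha ihb =>
    have h1 : gd n (.add a b) = Bool.rec (gB n) (gd n a) (Nat.beq (gd n a) (gd n b)) := rfl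
    cases hb : Nat.beq (gd n a) (gd n b) with
    | false =>
      rw [h1, hb] at h
      exact absurd h (lt_irrefl _)
    | true =>
      rw [hb] at h1
      have h2 : gd n (.add a b) = gd n a := h1
      have h3 := Nat.eq_of_beq_eq_true hb
      rw [h2] at h
      obtain ⟨D, h4, h5, h6⟩ := iha h
      obtain ⟨D', h7, h8, h9⟩ := ihb (h3 ▸ h)
      have h10 : D = D' := pk_uni (h6 ▸ h) (by rw [← h6, ← h9, h3]) h5 h8
      rw [← h10] at h7
      exact ⟨D, Hm.add a b D h4 h7, h5, h2.trans h6⟩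
  | neg a ih =>
    obtain ⟨D, h3, h4, h5⟩ := ih h
    exact ⟨D, Hm.neg a D h3, h4, h5⟩
  | mul a b iha ihb =>
    have h2 : gd n (.mul a b) = gd n a + gd n b := rfl
    obtain ⟨D, h4, h5, h6⟩ := iha (by omega)
    obtain ⟨D', h7, h8, h9⟩ := ihb (by omega)
    refine ⟨_, Hm.mul a b D D' h4 h7, fun j hj => by rw [h5 j hj, h8 j hj], ?_⟩
    rw [h2, h6, h9, ← Finset.sum_add_distrib]
    exact Finset.sum_congr rfl fun j _ => by ring

theorem ge_eq (n : ℕ) (ds : List ℕ) (i : ℕ) : ge n ds i = ∑ j ∈ Finset.range ds.length, nth ds j * gw n (i + j) := by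
  induction ds generalizing i with
  | nil => rfl
  | cons d ds ih =>
    have h1 : ge n (d :: ds) i = d * gw n i + ge n ds (i + 1) := rfl
    have h2 : ∀ j ∈ Finset.range ds.length, nth (d :: ds) (j + 1) * gw n (i + (j + 1)) = nth ds j * gw n (i + 1 + j) := by
      intro j _
      rw [nth_succ, show i + 1 + j = i + (j + 1) by ring]
    rw [h1, ih, List.length_cons, Finset.sum_range_succ', Finset.sum_congr rfl h2, nth_zero, Nat.add_zero]
    exact Nat.add_comm _ _

theorem hq_sound {n : ℕ} {ds : List ℕ} {f : Ax} (h : hq n ds f = true) : Hm n f (nth ds) := by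
  unfold hq at h
  cases h1 : Nat.beq (gd n f) (ge n ds 0) with
  | false =>
    rw [h1] at h
    cases h
  | true =>
    cases h2 : Nat.ble (Nat.succ (ge n ds 0)) (gB n) with
    | false =>
      rw [h1, h2] at h
      cases h
    | true =>
      rw [h1, h2] at h
      have h3 := Nat.eq_of_beq_eq_true h1
      have h4 : ge n ds 0 < gB n := Nat.le_of_ble_eq_true h2
      have h5 : ds.length = n := Nat.eq_of_beq_eq_true h
      obtain ⟨D, h6, h7, h8⟩ := gd_sound n f (h3 ▸ h4)
      have h9 : ge n ds 0 = ∑ j ∈ Finset.range n, nth ds j * gw n j := by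
        rw [ge_eq, h5]
        exact Finset.sum_congr rfl fun j _ => by rw [zero_add]
      have h10 : D = nth ds := pk_uni (h8 ▸ h3 ▸ h4) (by rw [← h8, h3, h9]) h7
        (fun i hi => nth_of_ge ds i (by omega))
      rw [← h10]
      exact h6

end Dv

theorem Inv.ini {W : ℕ} {d A k : ℕ → ℕ} {e : Ax} (h : Hm n e d) (hA : ∀ i < n, A i + 1 ≤ 2 ^ k i) :
    Inv n W d A k (∑ i : Fin n, k i * d i) (fun x => e.val x) (p1 e).2 ((p1 e).1 + (p1 e).2)
      ((pm (fun i => A i + (A i + 1) * 2 ^ (W * st d i)) (fun i => 2 ^ k i * (1 + 2 ^ (W * st d i))) e).1 +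
        kap W d (EP n d) * (p1 e).2 * 2 ^ (∑ i : Fin n, k i * d i) -
        (pm (fun i => A i + (A i + 1) * 2 ^ (W * st d i)) (fun i => 2 ^ k i * (1 + 2 ^ (W * st d i))) e).2) := by
  set XM : ℕ → MP n := fun i => if h : i < n then (A i : MP n) * X (false, ⟨i, h⟩) + ((A i : MP n) + 1) * X (true, ⟨i, h⟩) else 0
    with hXM
  set UM : ℕ → MP n := fun i => if h : i < n then (2 ^ k i) * (X (false, ⟨i, h⟩) + X (true, ⟨i, h⟩)) else 1 with hUM
  set YM : ℕ → MP n := fun i => if h : i < n then ((2 ^ k i - A i : ℕ) : MP n) * X (false, ⟨i, h⟩) +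
    ((2 ^ k i - (A i + 1) : ℕ) : MP n) * X (true, ⟨i, h⟩) else 1 with hYM
  have hXY : ∀ i < n, XM i + YM i = UM i := by
    intro i hi
    simp only [hXM, hUM, hYM, dif_pos hi]
    have h1 : ((A i : ℕ) : MP n) + ((2 ^ k i - A i : ℕ) : MP n) = 2 ^ k i := by
      rw [← Nat.cast_add, Nat.add_sub_cancel' (by have := hA i hi; omega)]
      push_cast; rfl
    have h2 : ((A i : MP n) + 1) + ((2 ^ k i - (A i + 1) : ℕ) : MP n) = 2 ^ k i := by
      have : ((A i : MP n) + 1) = ((A i + 1 : ℕ) : MP n) := by push_cast; rfl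
      rw [this, ← Nat.cast_add, Nat.add_sub_cancel' (hA i hi)]
      push_cast; rfl
    calc _ = (((A i : ℕ) : MP n) + ((2 ^ k i - A i : ℕ) : MP n)) * X (false, ⟨i, hi⟩) +
        (((A i : MP n) + 1) + ((2 ^ k i - (A i + 1) : ℕ) : MP n)) * X (true, ⟨i, hi⟩) := by ring
      _ = _ := by rw [h1, h2]; ring
  have hUD : ∏ j : Fin n, UM j ^ d j = 2 ^ (∑ i : Fin n, k i * d i) • EP n d := by
    have h1 : ∀ j : Fin n, UM j ^ d j = (2 : MP n) ^ (k j * d j) * (X (false, j) + X (true, j)) ^ d j := by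
      intro j
      simp only [hUM, dif_pos j.2]
      rw [mul_pow, ← pow_mul]
    rw [Finset.prod_congr rfl (fun j _ => h1 j), Finset.prod_mul_distrib, Finset.prod_pow_eq_pow_sum, EP, nsmul_eq_mul]
    push_cast
    rfl
  set K0 := ∑ i : Fin n, k i * d i with hK0
  obtain ⟨⟨Q1, h1⟩, ⟨Q2, h2⟩⟩ := h.dom XM UM YM hXY
  rw [hUD] at h1 h2
  set P1 := (pm XM UM e).1 with hP1
  set P2 := (pm XM UM e).2 with hP2
  have hev : ∀ {R : Type} [CommSemiring R] (s t : ℕ → R),
      pm (fun i => (A i : R) * t i + (A i + 1) * s i) (fun i => 2 ^ k i * (t i + s i)) e = (ev s t P1, ev s t P2) := by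
    intro R _ s t
    have h3 := pm_map (ev (n := n) s t).toRingHom XM UM e
    have h4 : pm (fun i => (A i : R) * t i + (A i + 1) * s i) (fun i => 2 ^ k i * (t i + s i)) e =
        pm (fun i => (ev (n := n) s t).toRingHom (XM i)) (fun i => (ev (n := n) s t).toRingHom (UM i)) e := by
      apply h.congr
      · intro i hi
        simp [hXM, hi, ev]
      · intro i hi
        simp [hUM, hi, ev]
    rw [h4, h3]
    rfl
  have hk1 : pm (fun i => A i + (A i + 1) * 2 ^ (W * st d i)) (fun i => 2 ^ k i * (1 + 2 ^ (W * st d i))) e =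
      (kap W d P1, kap W d P2) := by
    have := hev (R := ℕ) (fun i => 2 ^ (W * st d i)) (fun _ => 1)
    simpa [kap] using this
  rw [hk1]
  refine ⟨P1 + Q2, ⟨Q1 + P2, ?_⟩, ?_, ?_⟩
  · calc P1 + Q2 + (Q1 + P2) = (P1 + Q1) + (P2 + Q2) := by ring
      _ = _ := by rw [h1, h2, smul_smul, smul_smul, ← add_smul]; congr 1; ring
  · have h3 : kap W d P2 + kap W d Q2 = kap W d (EP n d) * (p1 e).2 * 2 ^ K0 := by
      have := congrArg (ev (fun i => 2 ^ (W * st d i)) (fun _ => 1)) h2
      rw [map_add, map_nsmul, map_nsmul] at this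
      simp only [smul_eq_mul] at this
      rw [show kap W d P2 + kap W d Q2 = _ from this]
      show _ * (_ * kap W d (EP n d)) = kap W d (EP n d) * (p1 e).2 * 2 ^ K0
      ring
    show kap W d (P1 + Q2) = kap W d P1 + kap W d (EP n d) * (p1 e).2 * 2 ^ K0 - kap W d P2
    rw [← h3]
    have : kap W d (P1 + Q2) = kap W d P1 + kap W d Q2 := by rw [kap, map_add]; rfl
    omega
  · intro s t hst
    have h3 := hev (R := ℝ) s t
    have h4 := h.val (fun i => (A i : ℝ) * t i + (A i + 1) * s i) (fun i => 2 ^ k i * (t i + s i)) (by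
      intro i _
      have := hst i
      positivity)
    rw [h3] at h4
    have h5 : ev s t P2 + ev s t Q2 = ((p1 e).2 : ℝ) * (2 ^ K0 * ∏ i : Fin n, (t i + s i) ^ d i) := by
      rw [← map_add, h2, map_nsmul, map_nsmul, ev_EP, nsmul_eq_mul, nsmul_eq_mul]
      push_cast
      rfl
    have h6 : ∏ j : Fin n, (2 ^ k j * (t j + s j)) ^ d j = (2 : ℝ) ^ K0 * ∏ i : Fin n, (t i + s i) ^ d i := by
      simp only [mul_pow, Finset.prod_mul_distrib, ← pow_mul]
      rw [Finset.prod_pow_eq_pow_sum]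
    rw [h6] at h4
    have h7 : (fun i => ((A i : ℝ) * t i + (A i + 1) * s i) / (2 ^ k i * (t i + s i))) = pt A k s t := rfl
    rw [h7] at h4
    rw [map_add]
    simp only at h4
    linarith [h4, h5]

end Pool.Agent.PB
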