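import Pool.Agent.PB.Def

set_option autoImplicit false

namespace Pool.Agent.PB

theorem frc_eq {α : Type} (q : ℕ) (k : ℕ → α) : frc q k = k q := by
  cases q <;> rfl

/-- packed number -/
def pk (W : ℕ) (c : ℕ → ℕ) (N : ℕ) : ℕ := ∑ j ∈ Finset.range N, c j * 2 ^ (W * j)

theorem pk_succ (W : ℕ) (c : ℕ → ℕ) (N : ℕ) : pk W c (N + 1) = 2 ^ (W * N) * c N + pk W c N := by
  rw [pk, Finset.sum_range_succ, pk]; ring

theorem pk_lt {W : ℕ} {c : ℕ → ℕ} {N : ℕ} (hc : ∀ j < N, c j < 2 ^ W) : pk W c N < 2 ^ (W * N) := by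
  induction N with
  | zero => simp [pk]
  | succ N ih =>
    rw [pk_succ]
    have h1 := ih (fun j hj => hc j (by omega))
    have h2 := hc N (by omega)
    calc 2 ^ (W * N) * c N + pk W c N < 2 ^ (W * N) * c N + 2 ^ (W * N) := by omega
      _ = 2 ^ (W * N) * (c N + 1) := by ring
      _ ≤ 2 ^ (W * N) * 2 ^ W := Nat.mul_le_mul_left _ h2
      _ = 2 ^ (W * (N + 1)) := by rw [← pow_add]; ring_nf

theorem pk_bit {W : ℕ} (hW : 0 < W) {c : ℕ → ℕ} {N : ℕ} (hc : ∀ j < N, c j < 2 ^ W) (b : ℕ) :
    (pk W c N).testBit b = (decide (b / W < N) && (c (b / W)).testBit (b % W)) := by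
  induction N with
  | zero => simp [pk]
  | succ N ih =>
    have hc' : ∀ j < N, c j < 2 ^ W := fun j hj => hc j (by omega)
    rw [pk_succ, Nat.testBit_two_pow_mul_add _ (pk_lt hc')]
    by_cases h : b < W * N
    · rw [if_pos h, ih hc']
      have h1 : b / W < N := by rw [Nat.div_lt_iff_lt_mul hW]; linarith [Nat.mul_comm W N]
      have h2 : b / W < N + 1 := by omega
      simp [h1, h2]
    · rw [if_neg h]
      push Not at h
      by_cases h2 : b / W < N + 1
      · have h3 : b / W = N := by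
          have : N ≤ b / W := by rw [Nat.le_div_iff_mul_le hW]; linarith [Nat.mul_comm W N]
          omega
        have h4 : b - W * N = b % W := by
          have := Nat.div_add_mod b W
          rw [h3] at this
          omega
        rw [h4, h3]
        simp
      · have h3 : c N < 2 ^ W := hc N (by omega)
        have h4 : W ≤ b - W * N := by
          have : N + 1 ≤ b / W := by omega
          rw [Nat.le_div_iff_mul_le hW] at this
          have h5 : (N + 1) * W = W * N + W := by ring
          omega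
        rw [Nat.testBit_lt_two_pow (lt_of_lt_of_le h3 (Nat.pow_le_pow_right (by norm_num) h4))]
        simp [h2]

theorem pk_congr {W : ℕ} {c c' : ℕ → ℕ} {N : ℕ} (h : ∀ j < N, c j = c' j) : pk W c N = pk W c' N :=
  Finset.sum_congr rfl (fun j hj => by rw [h j (Finset.mem_range.1 hj)])

theorem pk_inj {W : ℕ} (hW : 0 < W) {c c' : ℕ → ℕ} {N : ℕ} (hc : ∀ j < N, c j < 2 ^ W)
    (hc' : ∀ j < N, c' j < 2 ^ W) (h : pk W c N = pk W c' N) : ∀ j < N, c j = c' j := by
  intro j hj
  apply Nat.eq_of_testBit_eq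
  intro r
  by_cases hr : r < W
  · have h1 := pk_bit hW hc (W * j + r)
    have h2 := pk_bit hW hc' (W * j + r)
    have h3 : (W * j + r) / W = j := by
      rw [Nat.mul_add_div hW, Nat.div_eq_of_lt hr, add_zero]
    have h4 : (W * j + r) % W = r := by
      rw [Nat.mul_add_mod, Nat.mod_eq_of_lt hr]
    rw [h3, h4] at h1 h2
    rw [h, h2] at h1
    simpa [hj] using h1.symm
  · push Not at hr
    rw [Nat.testBit_lt_two_pow (lt_of_lt_of_le (hc j hj) (Nat.pow_le_pow_right (by norm_num) hr)),
      Nat.testBit_lt_two_pow (lt_of_lt_of_le (hc' j hj) (Nat.pow_le_pow_right (by norm_num) hr))]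

/-- digits of a number -/
theorem pk_digits (W : ℕ) (N x : ℕ) (hx : x < 2 ^ (W * N)) :
    x = pk W (fun j => x / 2 ^ (W * j) % 2 ^ W) N := by
  have key : ∀ M, x % 2 ^ (W * M) = pk W (fun j => x / 2 ^ (W * j) % 2 ^ W) M := by
    intro M
    induction M with
    | zero => simp [pk, Nat.mod_one]
    | succ M ih =>
      rw [pk_succ, ← ih]
      have : 2 ^ (W * (M + 1)) = 2 ^ (W * M) * 2 ^ W := by rw [← pow_add]; ring_nf
      rw [this, Nat.mod_mul]
      ring
  rw [← key N, Nat.mod_eq_of_lt hx]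

theorem geo_eq (T q : ℕ) (hT : 0 < T) (a : ℕ) : a * geo T q = pk T (fun _ => a) q := by
  have h1 : geo T q = ∑ k ∈ Finset.range q, (2 ^ T) ^ k := by
    rw [Nat.geomSum_eq (by
      calc 2 = 2 ^ 1 := by norm_num
        _ ≤ 2 ^ T := Nat.pow_le_pow_right (by norm_num) hT)]
    show (2 ^ (T * q) - 1) / (2 ^ T - 1) = _
    rw [pow_mul]
  rw [h1, pk, Finset.mul_sum]
  exact Finset.sum_congr rfl (fun j _ => by rw [pow_mul])

/-- strides -/
def st (d : ℕ → ℕ) : ℕ → ℕ
  | 0 => 1
  | i + 1 => st d i * (d i + 1)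

theorem st_pos (d : ℕ → ℕ) (i : ℕ) : 0 < st d i := by
  induction i with
  | zero => exact Nat.one_pos
  | succ i ih => exact Nat.mul_pos ih (Nat.succ_pos _)

theorem st_dvd (d : ℕ → ℕ) {i j : ℕ} (h : i ≤ j) : st d i ∣ st d j := by
  induction j, h using Nat.le_induction with
  | base => exact dvd_rfl
  | succ j _ ih => exact ih.trans (Dvd.intro _ rfl)

/-- exponent of the i-th variable at the index j -/
def ee (d : ℕ → ℕ) (i j : ℕ) : ℕ := j % st d (i + 1) / st d i

theorem sum_lt (d g : ℕ → ℕ) (n : ℕ) (hg : ∀ i < n, g i ≤ d i) :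
    ∑ i ∈ Finset.range n, st d i * g i < st d n := by
  induction n with
  | zero => simp [st]
  | succ n ih =>
    rw [Finset.sum_range_succ, st]
    have h1 := ih (fun i hi => hg i (by omega))
    have h2 := hg n (by omega)
    calc _ < st d n + st d n * g n := by omega
      _ = st d n * (g n + 1) := by ring
      _ ≤ _ := Nat.mul_le_mul_left _ (by omega)

theorem ee_sum (d g : ℕ → ℕ) (n : ℕ) (hg : ∀ i < n, g i ≤ d i) (i : ℕ) (hi : i < n) :
    ee d i (∑ i ∈ Finset.range n, st d i * g i) = g i := by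
  induction n, (Nat.succ_le_of_lt hi) using Nat.le_induction with
  | base =>
    rw [ee, Nat.mod_eq_of_lt (sum_lt d g (i + 1) hg), Finset.sum_range_succ,
      Nat.add_mul_div_left _ _ (st_pos d i), Nat.div_eq_of_lt (sum_lt d g i (fun j hj => hg j (by omega))), zero_add]
  | succ m hm ih =>
    rw [Finset.sum_range_succ, ee]
    obtain ⟨c, hc⟩ := st_dvd d hm
    rw [hc, Nat.succ_eq_add_one, mul_assoc, Nat.add_mul_mod_self_left]
    exact ih (fun j hj => hg j (by omega)) (by omega)

/-- the mask of degree l in the i-th variable selects the digits with exponent l -/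
theorem land_mask {W : ℕ} (hW : 0 < W) (d c : ℕ → ℕ) (i q l : ℕ) (hl : l ≤ d i)
    (hc : ∀ j < st d (i + 1) * q, c j < 2 ^ W) :
    Nat.land (pk W c (st d (i + 1) * q))
      (Nat.mul (Nat.shiftLeft (Nat.sub (Nat.pow 2 (W * st d i)) 1) (Nat.mul (W * st d i) l)) (geo (W * st d (i + 1)) q)) =
    pk W (fun j => if ee d i j = l then c j else 0) (st d (i + 1) * q) := by
  set s := st d i with hs
  set S := st d (i + 1) with hS
  have hs0 : 0 < s := st_pos d i
  have hS0 : 0 < S := st_pos d (i + 1)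
  have hSs : S = s * (d i + 1) := rfl
  have hT : 0 < W * S := Nat.mul_pos hW hS0
  have hh : 0 < W * s := Nat.mul_pos hW hs0
  have e1 : Nat.mul (Nat.shiftLeft (Nat.sub (Nat.pow 2 (W * s)) 1) (Nat.mul (W * s) l)) (geo (W * S) q) =
      pk (W * S) (fun _ => (2 ^ (W * s) - 1) <<< (W * s * l)) q := geo_eq (W * S) q hT _
  have hpat : ∀ j < q, (2 ^ (W * s) - 1) <<< (W * s * l) < 2 ^ (W * S) := by
    intro j _
    rw [Nat.shiftLeft_eq]
    have : 0 < 2 ^ (W * s) := by positivity
    calc (2 ^ (W * s) - 1) * 2 ^ (W * s * l) < 2 ^ (W * s) * 2 ^ (W * s * l) :=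
          Nat.mul_lt_mul_of_pos_right (by omega) (by positivity)
      _ = 2 ^ (W * s * (l + 1)) := by rw [← pow_add]; ring_nf
      _ ≤ 2 ^ (W * S) := Nat.pow_le_pow_right (by norm_num) (by
          rw [hSs, ← mul_assoc]
          exact Nat.mul_le_mul_left _ (by omega))
  rw [e1]
  show (pk W c (S * q)) &&& _ = _
  apply Nat.eq_of_testBit_eq
  intro b
  rw [Nat.testBit_and, pk_bit hW hc, pk_bit hT hpat, pk_bit hW (by
    intro j hj
    split_ifs
    · exact hc j hj
    · positivity)]
  rw [Nat.testBit_shiftLeft, Nat.testBit_two_pow_sub_one]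
  have h1 : b / (W * S) = b / W / S := by rw [Nat.div_div_eq_div_mul]
  have h2 : b % (W * S) / (W * s) = ee d i (b / W) := by
    rw [← Nat.div_div_eq_div_mul, Nat.mod_mul_right_div_self]
    rfl
  have h3 : (decide (b % (W * S) ≥ W * s * l) && decide (b % (W * S) - W * s * l < W * s)) =
      decide (ee d i (b / W) = l) := by
    rw [← h2, Bool.eq_iff_iff]
    simp only [ge_iff_le, Bool.and_eq_true, decide_eq_true_eq]
    rw [Nat.div_eq_iff hh]
    have h6 : l * (W * s) = W * s * l := by ring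
    rw [h6]
    constructor
    · rintro ⟨h4, h5⟩
      constructor
      · exact h4
      · omega
    · rintro ⟨h4, h5⟩
      constructor
      · exact h4
      · omega
  rw [h3, h1]
  by_cases hb : b / W < S * q
  · have h4 : b / W / S < q := by
      rw [Nat.div_lt_iff_lt_mul hS0]
      linarith [Nat.mul_comm S q]
    by_cases he : ee d i (b / W) = l
    · simp [hb, h4, he]
    · simp [he]
  · simp [hb]

end Pool.Agent.PB
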