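import Pool.Agent.PB.Pk

set_option autoImplicit false

open MvPolynomial

namespace Pool.Agent.PB

variable {n : ℕ}

/-- polynomials in the variables s_i = (true, i), t_i = (false, i) with natural coefficients -/
abbrev MP (n : ℕ) := MvPolynomial (Bool × Fin n) ℕ

/-- evaluation -/
noncomputable def ev {R : Type} [CommSemiring R] (s t : ℕ → R) : MP n →ₐ[ℕ] R :=
  aeval (fun v : Bool × Fin n => bif v.1 then s v.2 else t v.2)

theorem ev_sum {R : Type} [CommSemiring R] (s t : ℕ → R) (P : MP n) :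
    ev s t P = ∑ k ∈ P.support, ((coeff k P : ℕ) : R) * ∏ i : Fin n, (s i ^ k (true, i) * t i ^ k (false, i)) := by
  rw [ev, aeval_def, eval₂_eq']
  refine Finset.sum_congr rfl (fun k _ => ?_)
  congr 1
  rw [Fintype.prod_prod_type]
  simp [Finset.prod_mul_distrib]

/-- product of (s_i + t_i)^(d_i) -/
noncomputable def EP (n : ℕ) (d : ℕ → ℕ) : MP n :=
  ∏ i : Fin n, (X (false, i) + X (true, i)) ^ d i

theorem ev_EP {R : Type} [CommSemiring R] (s t : ℕ → R) (d : ℕ → ℕ) :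
    ev s t (EP n d) = ∏ i : Fin n, (t i + s i) ^ d i := by
  simp [EP, ev]

/-- coefficientwise bounded by B E -/
def Dom (d : ℕ → ℕ) (B : ℕ) (P : MP n) : Prop := ∃ Q : MP n, P + Q = B • EP n d

theorem EP_hom (d : ℕ → ℕ) (k : Bool × Fin n →₀ ℕ) (hk : coeff k (EP n d) ≠ 0) (i : Fin n) :
    k (true, i) + k (false, i) = d i := by
  have h1 : IsWeightedHomogeneous (fun v : Bool × Fin n => if v.2 = i then 1 else 0) (EP n d)
      (∑ j : Fin n, d j • (if j = i then 1 else 0)) := by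
    apply IsWeightedHomogeneous.prod
    intro j _
    apply IsWeightedHomogeneous.pow
    apply IsWeightedHomogeneous.add
    · exact isWeightedHomogeneous_X ℕ _ (false, j)
    · exact isWeightedHomogeneous_X ℕ _ (true, j)
  have h2 := h1 hk
  rw [Finsupp.weight_apply, Finsupp.sum_fintype _ _ (by simp), Fintype.sum_prod_type] at h2
  simpa using h2

theorem Dom.hom {d : ℕ → ℕ} {B : ℕ} {P : MP n} (h : Dom d B P) (k : Bool × Fin n →₀ ℕ) (hk : k ∈ P.support)
    (i : Fin n) : k (true, i) + k (false, i) = d i := by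
  obtain ⟨Q, hQ⟩ := h
  apply EP_hom d k
  intro h0
  have h1 := congrArg (coeff k) hQ
  rw [coeff_add, coeff_smul, h0, smul_zero] at h1
  rw [mem_support_iff] at hk
  omega

theorem coeff_le_one (P : MP n) (k : Bool × Fin n →₀ ℕ) : coeff k P ≤ ev (fun _ => (1 : ℕ)) (fun _ => 1) P := by
  rw [ev_sum]
  by_cases hk : k ∈ P.support
  · have h1 := Finset.single_le_sum (s := P.support)
      (f := fun k => ((coeff k P : ℕ) : ℕ) * ∏ i : Fin n, ((1 : ℕ) ^ k (true, i) * 1 ^ k (false, i)))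
      (fun _ _ => Nat.zero_le _) hk
    simpa using h1
  · rw [notMem_support_iff.1 hk]
    exact Nat.zero_le _

/-- sum of the degrees -/
def sdeg (n : ℕ) (d : ℕ → ℕ) : ℕ := ∑ i : Fin n, d i

theorem Dom.coeff_le {d : ℕ → ℕ} {B : ℕ} {P : MP n} (h : Dom d B P) (k : Bool × Fin n →₀ ℕ) :
    coeff k P ≤ B * 2 ^ sdeg n d := by
  obtain ⟨Q, hQ⟩ := h
  have h1 := congrArg (ev (fun _ => (1 : ℕ)) (fun _ => 1)) hQ
  rw [map_add, map_nsmul, ev_EP] at h1
  have h2 := coeff_le_one P k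
  have h3 : ∏ i : Fin n, (1 + 1) ^ d i = 2 ^ sdeg n d := by
    rw [sdeg, Finset.prod_pow_eq_pow_sum]
  rw [h3, smul_eq_mul] at h1
  omega

/-- index of an exponent -/
def ix (d : ℕ → ℕ) (k : Bool × Fin n →₀ ℕ) : ℕ := ∑ i : Fin n, st d i * k (true, i)

/-- exponents of the s_i as a function on ℕ -/
def gf (k : Bool × Fin n →₀ ℕ) (i : ℕ) : ℕ := if h : i < n then k (true, ⟨i, h⟩) else 0

theorem ix_eq (d : ℕ → ℕ) (k : Bool × Fin n →₀ ℕ) : ix d k = ∑ i ∈ Finset.range n, st d i * gf k i := by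
  rw [ix, ← Fin.sum_univ_eq_sum_range (fun i => st d i * gf k i) n]
  refine Finset.sum_congr rfl (fun i _ => ?_)
  simp [gf]

theorem gf_le {d : ℕ → ℕ} {k : Bool × Fin n →₀ ℕ} (hk : ∀ i : Fin n, k (true, i) + k (false, i) = d i) (i : ℕ)
    (hi : i < n) : gf k i ≤ d i := by
  have := hk ⟨i, hi⟩
  simp only [gf, hi, dif_pos]
  simp only at this
  omega

theorem ix_lt {d : ℕ → ℕ} {k : Bool × Fin n →₀ ℕ} (hk : ∀ i : Fin n, k (true, i) + k (false, i) = d i) :
    ix d k < st d n := by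
  rw [ix_eq]
  exact sum_lt d _ n (gf_le hk)

theorem ix_ee {d : ℕ → ℕ} {k : Bool × Fin n →₀ ℕ} (hk : ∀ i : Fin n, k (true, i) + k (false, i) = d i) (i : Fin n) :
    ee d i (ix d k) = k (true, i) := by
  rw [ix_eq, ee_sum d _ n (gf_le hk) i i.2]
  simp [gf]

theorem ix_inj {d : ℕ → ℕ} {k k' : Bool × Fin n →₀ ℕ} (hk : ∀ i : Fin n, k (true, i) + k (false, i) = d i)
    (hk' : ∀ i : Fin n, k' (true, i) + k' (false, i) = d i) (h : ix d k = ix d k') : k = k' := by
  ext ⟨b, i⟩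
  have h1 := ix_ee hk i
  rw [h, ix_ee hk' i] at h1
  have h2 := hk i
  have h3 := hk' i
  cases b <;> omega

/-- packed polynomial -/
noncomputable def kap (W : ℕ) (d : ℕ → ℕ) (P : MP n) : ℕ := ev (fun i => 2 ^ (W * st d i)) (fun _ => 1) P

theorem kap_sum (W : ℕ) (d : ℕ → ℕ) (P : MP n) :
    kap W d P = ∑ k ∈ P.support, coeff k P * 2 ^ (W * ix d k) := by
  rw [kap, ev_sum]
  refine Finset.sum_congr rfl (fun k _ => ?_)
  rw [Nat.cast_id]
  congr 1
  simp only [one_pow, mul_one, ← pow_mul]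
  rw [Finset.prod_pow_eq_pow_sum, ix, Finset.mul_sum]
  congr 1
  exact Finset.sum_congr rfl (fun i _ => by ring)

/-- digits of a packed polynomial -/
noncomputable def dg (d : ℕ → ℕ) (P : MP n) (j : ℕ) : ℕ := ∑ k ∈ P.support with ix d k = j, coeff k P

theorem pk_dg (W : ℕ) {d : ℕ → ℕ} {B : ℕ} {P : MP n} (h : Dom d B P) (p : ℕ → Prop) [DecidablePred p] :
    pk W (fun j => if p j then dg d P j else 0) (st d n) =
      ∑ k ∈ P.support with p (ix d k), coeff k P * 2 ^ (W * ix d k) := by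
  rw [pk, Finset.sum_filter, ← Finset.sum_fiberwise_of_maps_to (s := P.support) (t := Finset.range (st d n))
    (g := fun k => ix d k) (fun k hk => Finset.mem_range.2 (ix_lt (h.hom k hk)))]
  refine Finset.sum_congr rfl (fun j _ => ?_)
  by_cases hp : p j
  · rw [if_pos hp, dg, Finset.sum_mul]
    refine Finset.sum_congr rfl (fun k hk => ?_)
    rw [(Finset.mem_filter.1 hk).2, if_pos hp]
  · rw [if_neg hp, zero_mul, eq_comm]
    refine Finset.sum_eq_zero (fun k hk => ?_)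
    rw [(Finset.mem_filter.1 hk).2, if_neg hp]

theorem kap_pk (W : ℕ) {d : ℕ → ℕ} {B : ℕ} {P : MP n} (h : Dom d B P) :
    kap W d P = pk W (dg d P) (st d n) := by
  have := pk_dg W h (fun _ => True)
  simp only [if_true] at this
  rw [this, kap_sum]
  simp

theorem dg_ix {d : ℕ → ℕ} {B : ℕ} {P : MP n} (h : Dom d B P) {k : Bool × Fin n →₀ ℕ}
    (hk : ∀ i : Fin n, k (true, i) + k (false, i) = d i) : dg d P (ix d k) = coeff k P := by
  rw [dg]
  by_cases hP : k ∈ P.support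
  · rw [Finset.sum_eq_single k]
    · intro k' hk' hne
      rw [Finset.mem_filter] at hk'
      exact absurd (ix_inj (h.hom k' hk'.1) hk hk'.2) hne
    · intro hn
      exact (hn (Finset.mem_filter.2 ⟨hP, rfl⟩)).elim
  · rw [notMem_support_iff.1 hP]
    refine Finset.sum_eq_zero (fun k' hk' => ?_)
    rw [Finset.mem_filter] at hk'
    exact absurd (ix_inj (h.hom k' hk'.1) hk hk'.2 ▸ hk'.1) hP

theorem dg_lt {d : ℕ → ℕ} {B : ℕ} {P : MP n} (h : Dom d B P) {C : ℕ} (hC : B * 2 ^ sdeg n d < C) (j : ℕ) :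
    dg d P j < C := by
  by_cases hj : ∃ k ∈ P.support, ix d k = j
  · obtain ⟨k, hk, rfl⟩ := hj
    rw [dg_ix h (h.hom k hk)]
    exact lt_of_le_of_lt (h.coeff_le k) hC
  · rw [dg, Finset.sum_eq_zero]
    · omega
    · intro k hk
      rw [Finset.mem_filter] at hk
      exact absurd ⟨k, hk.1, hk.2⟩ hj

end Pool.Agent.PB
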