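import Pool.Agent.PB.Half

set_option autoImplicit false

open MvPolynomial

namespace Pool.Agent.PB

variable {n : ℕ}

/-- the point of the box with homogeneous coordinates s, t -/
noncomputable def pt (A k : ℕ → ℕ) (s t : ℕ → ℝ) (i : ℕ) : ℝ :=
  ((A i : ℝ) * t i + (A i + 1) * s i) / (2 ^ k i * (t i + s i))

/-- N packs the function f + O on the box A, k -/
def Inv (n W : ℕ) (d A k : ℕ → ℕ) (K : ℕ) (f : (ℕ → ℝ) → ℝ) (O B N : ℕ) : Prop :=
  ∃ P : MP n, Dom d (B * 2 ^ K) P ∧ kap W d P = N ∧ ∀ s t : ℕ → ℝ, (∀ i, t i + s i ≠ 0) →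
    ev s t P = (f (pt A k s t) + O) * (2 ^ K * ∏ i : Fin n, (t i + s i) ^ d i)

theorem Inv.right {W : ℕ} {d A k : ℕ → ℕ} {K : ℕ} {f : (ℕ → ℝ) → ℝ} {O B N : ℕ} (h : Inv n W d A k K f O B N)
    (hW : 0 < W) (hB : B * 2 ^ K * 2 ^ sdeg n d < 2 ^ W) (i : Fin n) (q : ℕ) (hq : st d n = st d (i + 1) * q) :
    Inv n W d (Function.update A i (2 * A i + 1)) (Function.update k i (k i + 1)) (K + d i) f O B
      (rgt (W * st d i) N (msk (W * st d i) (W * st d (i + 1)) q (d i + 1) []) 0) := by
  obtain ⟨P, hP, rfl, hev⟩ := h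
  refine ⟨fR i P, ?_, (rgt_eq W hW hP hB i q hq).symm, ?_⟩
  · have := hP.fR i
    rwa [mul_assoc, ← pow_add] at this
  · intro s t hst
    have h1 : ∀ j, t j + Function.update s i (2 * s i + t i) j ≠ 0 := by
      intro j
      by_cases hj : j = i
      · subst hj
        rw [Function.update_self]
        intro h0
        exact hst _ (by linarith)
      · rw [Function.update_of_ne hj]
        exact hst j
    rw [ev_fR, hev _ _ h1]
    have h2 : pt A k (Function.update s i (2 * s i + t i)) t =
        pt (Function.update A i (2 * A i + 1)) (Function.update k i (k i + 1)) s t := by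
      funext j
      unfold pt
      by_cases hj : j = i
      · subst hj
        simp only [Function.update_self]
        have h3 := hst i
        rw [div_eq_div_iff (by
          have := h1 i
          rw [Function.update_self] at this
          positivity) (by positivity)]
        push_cast
        ring
      · simp only [Function.update_of_ne hj]
    have h3 : ∏ j : Fin n, (t j + Function.update s i (2 * s i + t i) j) ^ d j =
        2 ^ d i * ∏ j : Fin n, (t j + s j) ^ d j := by
      rw [← ev_EP, ← ev_EP, ← ev_fR, fR_EP, map_nsmul, nsmul_eq_mul]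
      push_cast
      ring
    rw [h2, h3]
    ring

theorem Inv.left {W : ℕ} {d A k : ℕ → ℕ} {K : ℕ} {f : (ℕ → ℝ) → ℝ} {O B N : ℕ} (h : Inv n W d A k K f O B N)
    (hW : 0 < W) (hB : B * 2 ^ K * 2 ^ sdeg n d < 2 ^ W) (i : Fin n) (q : ℕ) (hq : st d n = st d (i + 1) * q) :
    Inv n W d (Function.update A i (2 * A i)) (Function.update k i (k i + 1)) (K + d i) f O B
      (lft (W * st d i) N (msk (W * st d i) (W * st d (i + 1)) q (d i + 1) []) 0) := by
  obtain ⟨P, hP, rfl, hev⟩ := h
  refine ⟨fL i P, ?_, (lft_eq W hW hP hB i q hq).symm, ?_⟩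
  · have := hP.fL i
    rwa [mul_assoc, ← pow_add] at this
  · intro s t hst
    have h1 : ∀ j, Function.update t i (2 * t i + s i) j + s j ≠ 0 := by
      intro j
      by_cases hj : j = i
      · subst hj
        rw [Function.update_self]
        intro h0
        exact hst _ (by linarith)
      · rw [Function.update_of_ne hj]
        exact hst j
    rw [ev_fL, hev _ _ h1]
    have h2 : pt A k s (Function.update t i (2 * t i + s i)) =
        pt (Function.update A i (2 * A i)) (Function.update k i (k i + 1)) s t := by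
      funext j
      unfold pt
      by_cases hj : j = i
      · subst hj
        simp only [Function.update_self]
        have h3 := hst i
        rw [div_eq_div_iff (by
          have := h1 i
          rw [Function.update_self] at this
          positivity) (by positivity)]
        push_cast
        ring
      · simp only [Function.update_of_ne hj]
    have h3 : ∏ j : Fin n, (Function.update t i (2 * t i + s i) j + s j) ^ d j =
        2 ^ d i * ∏ j : Fin n, (t j + s j) ^ d j := by
      rw [← ev_EP, ← ev_EP, ← ev_fL, fL_EP, map_nsmul, nsmul_eq_mul]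
      push_cast
      ring
    rw [h2, h3]
    ring

theorem leaf_core {W : ℕ} {d : ℕ → ℕ} {P : MP n} {b c : ℕ} (hW : 0 < W) (hP : Dom d b P)
    (hb : b * 2 ^ sdeg n d < 2 ^ (W - 1)) (hc : c * 2 ^ sdeg n d < 2 ^ (W - 1))
    (h1 : c * kap W d (EP n d) ≤ kap W d P)
    (h2 : Nat.land (kap W d P - c * kap W d (EP n d)) (2 ^ (W - 1) * geo W (st d n)) = 0) (s t : ℕ → ℝ)
    (hs : ∀ i < n, 0 ≤ s i) (ht : ∀ i < n, 0 ≤ t i) :
    (c : ℝ) * ∏ i : Fin n, (t i + s i) ^ d i ≤ ev s t P := by
  set PR : MP n := c • EP n d with hPR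
  have hR : Dom d c PR := ⟨0, by rw [add_zero]⟩
  have hkR : kap W d PR = c * kap W d (EP n d) := by
    rw [hPR, kap, map_nsmul, smul_eq_mul]; rfl
  have hWs : 2 ^ W = 2 ^ (W - 1) + 2 ^ (W - 1) := by
    obtain ⟨w, rfl⟩ : ∃ w, W = w + 1 := ⟨W - 1, by omega⟩
    rw [Nat.add_sub_cancel, pow_succ]; ring
  set D := kap W d P - c * kap W d (EP n d) with hD
  have hD1 : kap W d P = kap W d PR + D := by rw [hkR]; omega
  have hlt : kap W d P < 2 ^ (W * st d n) := by
    rw [kap_pk W hP]
    exact pk_lt (fun j _ => by have := dg_lt hP hb j; omega)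
  have hD2 : D < 2 ^ (W * st d n) := by omega
  have hD3 := pk_digits W (st d n) D hD2
  set D' : ℕ → ℕ := fun j => D / 2 ^ (W * j) % 2 ^ W with hD'
  have hD4 : ∀ j, D' j < 2 ^ W := fun j => Nat.mod_lt _ (by positivity)
  have hD5 : ∀ j < st d n, D' j < 2 ^ (W - 1) := by
    intro j hj
    rw [geo_eq W (st d n) hW] at h2
    have h3 : (D &&& pk W (fun _ => 2 ^ (W - 1)) (st d n)).testBit (W * j + (W - 1)) = false := by
      have : D &&& pk W (fun _ => 2 ^ (W - 1)) (st d n) = 0 := h2
      rw [this, Nat.zero_testBit]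
    rw [Nat.testBit_and, hD3, pk_bit hW (fun j _ => hD4 j), pk_bit hW (fun j _ => by omega)] at h3
    have h4 : (W * j + (W - 1)) / W = j := by
      rw [Nat.mul_add_div hW, Nat.div_eq_of_lt (by omega), add_zero]
    have h5 : (W * j + (W - 1)) % W = W - 1 := by
      rw [Nat.mul_add_mod, Nat.mod_eq_of_lt (by omega)]
    rw [h4, h5] at h3
    simp only [hj, decide_true, Bool.true_and, Nat.testBit_two_pow_self, Bool.and_true] at h3
    apply Nat.lt_pow_two_of_testBit
    intro r hr
    rcases Nat.lt_or_ge (W - 1) r with h6 | h6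
    · exact Nat.testBit_lt_two_pow (lt_of_lt_of_le (hD4 j) (Nat.pow_le_pow_right (by norm_num) (by omega)))
    · have : r = W - 1 := by omega
      rw [this]; exact h3
  have key : ∀ j < st d n, dg d P j = dg d PR j + D' j := by
    apply pk_inj hW
    · intro j _
      have := dg_lt hP hb j
      omega
    · intro j hj
      have := dg_lt hR hc j
      have := hD5 j hj
      omega
    · rw [← kap_pk W hP, hD1, hD3, kap_pk W hR]
      rw [pk, pk, pk, ← Finset.sum_add_distrib]
      exact Finset.sum_congr rfl (fun j _ => by ring)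
  have hcoef : ∀ k ∈ PR.support, coeff k PR ≤ coeff k P := by
    intro k hk
    have h3 := hR.hom k hk
    have h4 := key _ (ix_lt h3)
    rw [dg_ix hP h3, dg_ix hR h3] at h4
    omega
  have hmon : ∀ k : Bool × Fin n →₀ ℕ, 0 ≤ ∏ i : Fin n, (s i ^ k (true, i) * t i ^ k (false, i)) := by
    intro k
    refine Finset.prod_nonneg (fun i _ => ?_)
    have := hs i i.2
    have := ht i i.2
    positivity
  have e1 : (c : ℝ) * ∏ i : Fin n, (t i + s i) ^ d i = ev s t PR := by
    rw [hPR, map_nsmul, ev_EP, nsmul_eq_mul]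
  rw [e1, ev_sum, ev_sum]
  calc ∑ k ∈ PR.support, ((coeff k PR : ℕ) : ℝ) * ∏ i : Fin n, (s i ^ k (true, i) * t i ^ k (false, i)) ≤
      ∑ k ∈ PR.support, ((coeff k P : ℕ) : ℝ) * ∏ i : Fin n, (s i ^ k (true, i) * t i ^ k (false, i)) := by
        refine Finset.sum_le_sum (fun k hk => ?_)
        exact mul_le_mul_of_nonneg_right (by exact_mod_cast hcoef k hk) (hmon k)
    _ ≤ ∑ k ∈ PR.support ∪ P.support, ((coeff k P : ℕ) : ℝ) * ∏ i : Fin n, (s i ^ k (true, i) * t i ^ k (false, i)) :=
        Finset.sum_le_sum_of_subset_of_nonneg Finset.subset_union_left (fun k _ _ => mul_nonneg (by positivity) (hmon k))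
    _ = ∑ k ∈ P.support, ((coeff k P : ℕ) : ℝ) * ∏ i : Fin n, (s i ^ k (true, i) * t i ^ k (false, i)) := by
        symm
        apply Finset.sum_subset Finset.subset_union_right
        intro k _ hk
        rw [notMem_support_iff.1 hk, Nat.cast_zero, zero_mul]

end Pool.Agent.PB
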